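import Mathlib

/-!
# Iterates of the sum of divisors: counting, basic lemmas
-/

set_option autoImplicit false

namespace Pool.MKP

open ArithmeticFunction Finset

/-- The iterate number `j` of the sum of divisors at `n`. -/
def it (j n : ℕ) : ℕ := (⇑(sigma 1))^[j] n

lemma it_zero (n : ℕ) : it 0 n = n := rfl

lemma it_succ (j n : ℕ) : it (j + 1) n = sigma 1 (it j n) :=
  Function.iterate_succ_apply' _ _ _

lemma sigma_pos' {n : ℕ} (hn : 0 < n) : 0 < sigma 1 n := by
  rw [sigma_one_apply]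
  exact Finset.sum_pos (fun d hd => Nat.pos_of_mem_divisors hd)
    ⟨1, Nat.one_mem_divisors.2 hn.ne'⟩

lemma it_pos {n : ℕ} (hn : 0 < n) (j : ℕ) : 0 < it j n := by
  induction j with
  | zero => exact hn
  | succ j ih => rw [it_succ]; exact sigma_pos' ih

lemma sigma_le_sq {n : ℕ} : sigma 1 n ≤ n ^ 2 := by
  rw [sigma_one_apply]
  calc ∑ d ∈ n.divisors, d ≤ ∑ _d ∈ n.divisors, n :=
        Finset.sum_le_sum fun d hd => Nat.divisor_le hd
    _ = n.divisors.card * n := by rw [Finset.sum_const, smul_eq_mul]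
    _ ≤ n * n := Nat.mul_le_mul_right _ (Nat.card_divisors_le_self n)
    _ = n ^ 2 := by ring

lemma it_le {n N : ℕ} (h : n ≤ N) (j : ℕ) : it j n ≤ N ^ (2 ^ j) := by
  induction j with
  | zero => simpa [it_zero] using h
  | succ j ih =>
    rw [it_succ]
    calc sigma 1 (it j n) ≤ (it j n) ^ 2 := sigma_le_sq
      _ ≤ (N ^ (2 ^ j)) ^ 2 := Nat.pow_le_pow_left ih 2
      _ = N ^ (2 ^ (j + 1)) := by rw [← pow_mul, pow_succ]

lemma sigma_prod {M : ℕ} (hM : M ≠ 0) :
    sigma 1 M = ∏ s ∈ M.primeFactors, sigma 1 (s ^ M.factorization s) := by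
  rw [isMultiplicative_sigma.multiplicative_factorization _ hM]
  rfl

lemma sigma_pow_lt {p : ℕ} (hp : p.Prime) (k : ℕ) : sigma 1 (p ^ k) < 2 * p ^ k := by
  rw [sigma_one_apply_prime_pow hp]
  induction k with
  | zero => simp
  | succ k ih =>
    rw [Finset.sum_range_succ]
    have h2 := hp.two_le
    calc ∑ i ∈ range (k + 1), p ^ i + p ^ (k + 1) < 2 * p ^ k + p ^ (k + 1) := by omega
      _ ≤ p * p ^ k + p ^ (k + 1) := by
        have := Nat.mul_le_mul_right (p ^ k) h2
        omega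
      _ = 2 * p ^ (k + 1) := by ring

lemma sigma_prime {p : ℕ} (hp : p.Prime) : sigma 1 (p ^ 1) = p + 1 := by
  rw [sigma_one_apply_prime_pow hp]
  simp [Finset.sum_range_succ]
  omega

lemma omega_le_log (n : ℕ) (hn : n ≠ 0) : n.primeFactors.card ≤ Nat.log 2 n := by
  apply Nat.le_log_of_pow_le (by norm_num)
  calc 2 ^ n.primeFactors.card = ∏ _p ∈ n.primeFactors, 2 := by rw [Finset.prod_const]
    _ ≤ ∏ p ∈ n.primeFactors, p :=
        Finset.prod_le_prod' fun p hp => (Nat.prime_of_mem_primeFactors hp).two_le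
    _ ≤ n := Nat.le_of_dvd (Nat.pos_of_ne_zero hn) (Nat.prod_primeFactors_dvd n)

lemma two_pow_omega_le (n : ℕ) (hn : n ≠ 0) : 2 ^ n.primeFactors.card ≤ n.divisors.card := by
  rw [← Finset.card_powerset]
  have h1 : (n.primeFactors.powerset.image (fun S => ∏ p ∈ S, p)) ⊆ n.divisors := by
    intro d hd
    rw [Finset.mem_image] at hd
    obtain ⟨S, hS, rfl⟩ := hd
    rw [Finset.mem_powerset] at hS
    rw [Nat.mem_divisors]
    exact ⟨(Finset.prod_dvd_prod_of_subset _ _ _ hS).trans (Nat.prod_primeFactors_dvd n), hn⟩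
  have h2 : Set.InjOn (fun S : Finset ℕ => ∏ p ∈ S, p)
      (n.primeFactors.powerset : Finset (Finset ℕ)) := by
    intro S hS T hT hST
    have hS' : ∀ p ∈ S, p.Prime := fun p hp =>
      Nat.prime_of_mem_primeFactors (Finset.mem_powerset.1 (Finset.mem_coe.1 hS) hp)
    have hT' : ∀ p ∈ T, p.Prime := fun p hp =>
      Nat.prime_of_mem_primeFactors (Finset.mem_powerset.1 (Finset.mem_coe.1 hT) hp)
    have := congrArg Nat.primeFactors hST
    rwa [Nat.primeFactors_prod hS', Nat.primeFactors_prod hT'] at this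
  calc n.primeFactors.powerset.card
      = (n.primeFactors.powerset.image (fun S => ∏ p ∈ S, p)).card :=
        (Finset.card_image_of_injOn h2).symm
    _ ≤ n.divisors.card := Finset.card_le_card h1

/-- a prime dividing the sum of divisors divides one of the factors -/
lemma prime_dvd_sigma {M r : ℕ} (hM : M ≠ 0) (hr : r.Prime) (h : r ∣ sigma 1 M) :
    ∃ s ∈ M.primeFactors, r ∣ sigma 1 (s ^ M.factorization s) := by
  rw [sigma_prod hM] at h
  exact (Prime.dvd_finsetProd_iff hr.prime _).1 h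

/-- sums over the multiples of `d` shifted by one -/
lemma sum_shift (X d : ℕ) (hd : 0 < d) (W : ℝ)
    (hW : ∑ k ∈ Icc 1 (X + 1), (1 : ℝ) / k ≤ W) :
    ∑ s ∈ (Icc 1 X).filter (fun s => d ∣ s + 1), (1 : ℝ) / s ≤ 2 * W / d := by
  have hd' : (0 : ℝ) < d := by exact_mod_cast hd
  have h1 : ∀ s ∈ (Icc 1 X).filter (fun s => d ∣ s + 1),
      (1 : ℝ) / s ≤ 2 / d * (1 / (((s + 1) / d : ℕ) : ℝ)) := by
    intro s hs
    rw [Finset.mem_filter, Finset.mem_Icc] at hs
    obtain ⟨⟨h1, h2⟩, k, hk⟩ := hs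
    have hk0 : 0 < k := by
      rcases Nat.eq_zero_or_pos k with h | h
      · rw [h] at hk; omega
      · exact h
    have e : (s + 1) / d = k := by rw [hk]; exact Nat.mul_div_cancel_left k hd
    rw [e]
    have hk' : (0 : ℝ) < k := by exact_mod_cast hk0
    have hs' : (1 : ℝ) ≤ s := by exact_mod_cast h1
    have e2 : (s : ℝ) + 1 = d * k := by exact_mod_cast hk
    rw [div_mul_div_comm, mul_one, ← e2, div_le_div_iff₀ (by linarith) (by linarith)]
    linarith
  refine (Finset.sum_le_sum h1).trans ?_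
  rw [← Finset.mul_sum]
  have h2 : ∑ s ∈ (Icc 1 X).filter (fun s => d ∣ s + 1), (1 : ℝ) / (((s + 1) / d : ℕ) : ℝ)
      ≤ ∑ k ∈ Icc 1 (X + 1), (1 : ℝ) / k := by
    rw [← Finset.sum_image (s := (Icc 1 X).filter (fun s => d ∣ s + 1))
      (g := fun s => (s + 1) / d) (f := fun k : ℕ => (1 : ℝ) / k)]
    · apply Finset.sum_le_sum_of_subset_of_nonneg
      · intro k hk
        rw [Finset.mem_image] at hk
        obtain ⟨s, hs, rfl⟩ := hk
        rw [Finset.mem_filter, Finset.mem_Icc] at hs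
        rw [Finset.mem_Icc]
        exact ⟨Nat.div_pos (Nat.le_of_dvd (by omega) hs.2) hd,
          (Nat.div_le_self _ _).trans (by omega)⟩
      · intro k _ _; positivity
    · intro s hs t ht hst
      rw [Finset.mem_coe, Finset.mem_filter] at hs ht
      have e1 := Nat.div_mul_cancel hs.2
      have e2 := Nat.div_mul_cancel ht.2
      simp only at hst
      rw [hst] at e1
      omega
  calc 2 / (d : ℝ) * ∑ s ∈ (Icc 1 X).filter (fun s => d ∣ s + 1),
        (1 : ℝ) / (((s + 1) / d : ℕ) : ℝ)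
      ≤ 2 / d * W := mul_le_mul_of_nonneg_left (h2.trans hW) (by positivity)
    _ = 2 * W / d := by ring

/-- sums over the numbers with many prime factors -/
lemma sum_omega (M κ : ℕ) (W : ℝ) (hW : ∑ k ∈ Icc 1 M, (1 : ℝ) / k ≤ W) :
    ∑ t ∈ (Icc 1 M).filter (fun t => κ < t.primeFactors.card), (1 : ℝ) / t
      ≤ W ^ 2 / 2 ^ κ := by
  have h0 : (0 : ℝ) ≤ ∑ k ∈ Icc 1 M, (1 : ℝ) / k := Finset.sum_nonneg fun k _ => by positivity
  have h1 : ∀ t ∈ (Icc 1 M).filter (fun t => κ < t.primeFactors.card),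
      (1 : ℝ) / t ≤ (t.divisors.card : ℝ) / t / 2 ^ κ := by
    intro t ht
    rw [Finset.mem_filter, Finset.mem_Icc] at ht
    have ht0 : (0 : ℝ) < t := by exact_mod_cast ht.1.1
    have h2 : 2 ^ κ ≤ t.divisors.card :=
      (Nat.pow_le_pow_right (by norm_num) ht.2.le).trans (two_pow_omega_le t (by omega))
    have h3 : (2 : ℝ) ^ κ ≤ t.divisors.card := by exact_mod_cast h2
    rw [div_div, div_le_div_iff₀ ht0 (by positivity)]
    nlinarith
  refine (Finset.sum_le_sum h1).trans ?_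
  rw [← Finset.sum_div]
  apply div_le_div_of_nonneg_right _ (by positivity)
  have h4 : ∑ t ∈ (Icc 1 M).filter (fun t => κ < t.primeFactors.card), (t.divisors.card : ℝ) / t
      ≤ ∑ t ∈ Icc 1 M, (t.divisors.card : ℝ) / t := by
    apply Finset.sum_le_sum_of_subset_of_nonneg (Finset.filter_subset _ _)
    intro t _ _; positivity
  refine h4.trans ?_
  have h5 : ∑ t ∈ Icc 1 M, (t.divisors.card : ℝ) / t
      ≤ ∑ a ∈ Icc 1 M, ∑ b ∈ Icc 1 M, (1 : ℝ) / a * (1 / b) := by
    have h6 : ∀ t ∈ Icc 1 M, (t.divisors.card : ℝ) / t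
        = ∑ x ∈ t.divisorsAntidiagonal, (1 : ℝ) / x.1 * (1 / x.2) := by
      intro t ht
      rw [Finset.mem_Icc] at ht
      have : ∀ x ∈ t.divisorsAntidiagonal, (1 : ℝ) / x.1 * (1 / x.2) = 1 / t := by
        intro x hx
        rw [Nat.mem_divisorsAntidiagonal] at hx
        rw [← hx.1]
        push_cast
        rw [div_mul_div_comm, one_mul]
      rw [Finset.sum_congr rfl this, Finset.sum_const, nsmul_eq_mul,
        ← Nat.map_div_right_divisors, Finset.card_map]
      ring
    rw [Finset.sum_congr rfl h6, ← Finset.sum_product', ← Finset.sum_biUnion]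
    · apply Finset.sum_le_sum_of_subset_of_nonneg
      · intro x hx
        rw [Finset.mem_biUnion] at hx
        obtain ⟨t, ht, hx⟩ := hx
        rw [Finset.mem_Icc] at ht
        rw [Nat.mem_divisorsAntidiagonal] at hx
        rw [Finset.mem_product, Finset.mem_Icc, Finset.mem_Icc]
        have hx1 : 0 < x.1 := Nat.pos_of_ne_zero fun h => hx.2 (by rw [← hx.1, h, zero_mul])
        have hx2 : 0 < x.2 := Nat.pos_of_ne_zero fun h => hx.2 (by rw [← hx.1, h, mul_zero])
        refine ⟨⟨hx1, ?_⟩, hx2, ?_⟩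
        · exact (Nat.le_mul_of_pos_right _ hx2).trans (hx.1.le.trans ht.2)
        · exact (Nat.le_mul_of_pos_left _ hx1).trans (hx.1.le.trans ht.2)
      · intro x _ _; positivity
    · intro a _ b _ hab
      rw [Function.onFun, Finset.disjoint_left]
      intro x hx hy
      rw [Nat.mem_divisorsAntidiagonal] at hx hy
      exact hab (hx.1.symm.trans hy.1)
  refine h5.trans ?_
  have h7 : ∑ a ∈ Icc 1 M, ∑ b ∈ Icc 1 M, (1 : ℝ) / a * (1 / b)
      = (∑ k ∈ Icc 1 M, (1 : ℝ) / k) ^ 2 := by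
    rw [sq, Finset.sum_mul_sum]
  rw [h7]
  exact pow_le_pow_left₀ h0 hW 2

/-- tails of the sum of the reciprocal squares -/
lemma sum_sq_tail (Q M : ℕ) (hQ : 2 ≤ Q) :
    ∑ q ∈ Ico Q M, (1 : ℝ) / (q : ℝ) ^ 2 ≤ 1 / ((Q : ℝ) - 1) := by
  have hQ' : (2 : ℝ) ≤ Q := by exact_mod_cast hQ
  have key : ∀ M : ℕ, Q ≤ M → ∑ q ∈ Ico Q M, (1 : ℝ) / (q : ℝ) ^ 2
      ≤ 1 / ((Q : ℝ) - 1) - 1 / ((M : ℝ) - 1) := by
    intro M hM
    induction M, hM using Nat.le_induction with
    | base => simp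
    | succ M hM ih =>
      rw [Finset.sum_Ico_succ_top hM]
      have hM' : (2 : ℝ) ≤ M := hQ'.trans (by exact_mod_cast hM)
      have h1 : (1 : ℝ) / (M : ℝ) ^ 2 ≤ 1 / ((M : ℝ) - 1) - 1 / (M : ℝ) := by
        rw [div_sub_div _ _ (by linarith) (by linarith), div_le_div_iff₀ (by positivity)
          (mul_pos (by linarith) (by linarith))]
        nlinarith
      push_cast
      have h2 : ((M : ℝ) + 1 - 1) = M := by ring
      rw [h2]
      linarith
  rcases le_total Q M with h | h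
  · rcases eq_or_lt_of_le h with h | h
    · rw [← h]; simp; linarith
    · have := key M h.le
      have hM : (0 : ℝ) ≤ 1 / ((M : ℝ) - 1) := by
        have : (Q : ℝ) < M := by exact_mod_cast h
        apply div_nonneg (by norm_num); linarith
      linarith
  · rw [Finset.Ico_eq_empty_of_le h]
    simp; linarith

end Pool.MKP
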