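import Pool.Agent.H38.MKP.Basic

/-!
# Iterates of the sum of divisors: the exceptional sets
-/

set_option autoImplicit false

namespace Pool.MKP

open ArithmeticFunction Finset

open scoped Classical in
section

/-- the thresholds for the number of prime factors and for the prime powers with exponent >= 2 -/
def KB (κ : ℕ) : ℕ → ℕ × ℕ
  | 0 => (κ, 4 ^ κ)
  | j + 1 => ((KB κ j).1 * (κ + Nat.log 2 (2 * (KB κ j).2 + 1)),
      ((2 * (KB κ j).2 + 1) ^ 2) ^ (KB κ j).1)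

def Kk (κ j : ℕ) : ℕ := (KB κ j).1

def Bb (κ j : ℕ) : ℕ := (KB κ j).2

def Qt (κ : ℕ) : ℕ → ℕ
  | 0 => 0
  | j + 1 => 2 * Bb κ j + 1

lemma Kk_succ (κ j : ℕ) : Kk κ (j + 1) = Kk κ j * (κ + Nat.log 2 (Qt κ (j + 1))) := rfl

lemma Bb_succ (κ j : ℕ) : Bb κ (j + 1) = (Qt κ (j + 1) ^ 2) ^ Kk κ j := rfl

lemma Kk_pos {κ : ℕ} (hκ : 1 ≤ κ) (j : ℕ) : 1 ≤ Kk κ j := by
  induction j with
  | zero => exact hκ
  | succ j ih => rw [Kk_succ]; exact Nat.mul_pos ih (by omega)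

lemma Bb_lt {κ : ℕ} (hκ : 1 ≤ κ) (j : ℕ) : Qt κ (j + 1) ≤ Bb κ (j + 1) := by
  rw [Bb_succ]
  have h1 : 1 ≤ Qt κ (j + 1) := by simp [Qt]
  calc Qt κ (j + 1) ≤ Qt κ (j + 1) ^ 2 := Nat.le_self_pow (by norm_num) _
    _ ≤ (Qt κ (j + 1) ^ 2) ^ Kk κ j := Nat.le_self_pow (by have := Kk_pos hκ j; omega) _

lemma two_pow_le_Bb {κ : ℕ} (hκ : 1 ≤ κ) (j : ℕ) : 2 ^ κ ≤ Bb κ j := by
  induction j with
  | zero => exact Nat.pow_le_pow_left (by norm_num) κ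
  | succ j ih =>
    refine ih.trans (le_trans ?_ (Bb_lt hκ j))
    simp only [Qt]; omega

lemma Qt_le {κ : ℕ} (hκ : 1 ≤ κ) (j : ℕ) : Qt κ j ≤ 2 * Bb κ j := by
  cases j with
  | zero => simp [Qt]
  | succ j => exact (Bb_lt hκ j).trans (by omega)

lemma Qt_mono {κ : ℕ} (hκ : 1 ≤ κ) (j : ℕ) : Qt κ j ≤ Qt κ (j + 1) := by
  refine (Qt_le hκ j).trans ?_
  simp only [Qt]; omega

/-- level `j` is good -/
def P (κ j n : ℕ) : Prop :=
  (it j n).primeFactors.card ≤ Kk κ j ∧ ∀ q ∈ (it j n).primeFactors,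
    2 ≤ (it j n).factorization q → q ^ (it j n).factorization q ≤ Bb κ j

/-- the levels below `j` are good -/
def G (κ j n : ℕ) : Prop := ∀ i < j, P κ i n

lemma G_succ {κ j n : ℕ} : G κ (j + 1) n ↔ G κ j n ∧ P κ j n := by
  constructor
  · exact fun h => ⟨fun i hi => h i (by omega), h j (by omega)⟩
  · rintro ⟨h1, h2⟩ i hi
    rcases Nat.lt_succ_iff_lt_or_eq.1 hi with h | h
    · exact h1 i h
    · rw [h]; exact h2

/-- the main step down -/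
lemma down {κ : ℕ} (hκ : 1 ≤ κ) {j n r : ℕ} (hn : 0 < n) (hP : P κ j n)
    (hQ : Qt κ (j + 1) ≤ r) {s : ℕ} (hs : s ∈ (it j n).primeFactors)
    (h : r ∣ sigma 1 (s ^ (it j n).factorization s)) :
    (it j n).factorization s = 1 ∧ r ∣ s + 1 ∧ Qt κ j ≤ s ∧ s.Prime ∧ s ∣ it j n := by
  have hsp := Nat.prime_of_mem_primeFactors hs
  have hsd := Nat.dvd_of_mem_primeFactors hs
  have hv : 1 ≤ (it j n).factorization s :=
    (hsp.dvd_iff_one_le_factorization (it_pos hn j).ne').1 hsd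
  have h1 : (it j n).factorization s = 1 := by
    by_contra hne
    have h2 := hP.2 s hs (by omega)
    have h3 := sigma_pow_lt hsp ((it j n).factorization s)
    have h4 := Nat.le_of_dvd (sigma_pos' (pow_pos hsp.pos _)) h
    simp only [Qt] at hQ
    omega
  rw [h1, sigma_prime hsp] at h
  refine ⟨h1, h, ?_, hsp, hsd⟩
  have h5 := Nat.le_of_dvd (by omega) h
  have h6 := Qt_le hκ j
  simp only [Qt] at hQ
  omega

lemma down' {κ : ℕ} (hκ : 1 ≤ κ) {j n r : ℕ} (hn : 0 < n) (hP : P κ j n) (hr : r.Prime)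
    (hQ : Qt κ (j + 1) ≤ r) (h : r ∣ it (j + 1) n) :
    ∃ s, s.Prime ∧ Qt κ j ≤ s ∧ s ∣ it j n ∧ r ∣ s + 1 := by
  rw [it_succ] at h
  obtain ⟨s, hs, h1⟩ := prime_dvd_sigma (it_pos hn j).ne' hr h
  obtain ⟨-, h2, h3, h4, h5⟩ := down hκ hn hP hQ hs h1
  exact ⟨s, h4, h3, h5, h2⟩

noncomputable def AA (κ N j r : ℕ) : Finset ℕ := (Icc 1 N).filter fun n => G κ j n ∧ r ∣ it j n

noncomputable def AA2 (κ N j r r' : ℕ) : Finset ℕ :=
  (Icc 1 N).filter fun n => G κ j n ∧ r ∣ it j n ∧ r' ∣ it j n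

noncomputable def EV (κ N j D : ℕ) : Finset ℕ :=
  (Icc 1 N).filter fun n => G κ j n ∧ ∃ s, s.Prime ∧ Qt κ j ≤ s ∧ s ∣ it j n ∧ D ∣ s + 1

noncomputable def EV2 (κ N j d d' : ℕ) : Finset ℕ :=
  (Icc 1 N).filter fun n => G κ j n ∧ ∃ s s', s.Prime ∧ s'.Prime ∧ s ≠ s' ∧ Qt κ j ≤ s ∧
    Qt κ j ≤ s' ∧ s ∣ it j n ∧ s' ∣ it j n ∧ d ∣ s + 1 ∧ d' ∣ s' + 1

lemma card_le_sum {ι : Type*} (S : Finset ℕ) (T : Finset ι) (F : ι → Finset ℕ)
    (h : ∀ n ∈ S, ∃ i ∈ T, n ∈ F i) : (S.card : ℝ) ≤ ∑ i ∈ T, ((F i).card : ℝ) := by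
  have h1 : S ⊆ T.biUnion F := fun n hn => by
    rw [Finset.mem_biUnion]; exact h n hn
  have h2 := (Finset.card_le_card h1).trans Finset.card_biUnion_le
  exact_mod_cast h2

lemma multiples (N d : ℕ) (_hd : 0 < d) (S : Finset ℕ) (h : ∀ n ∈ S, n ∈ Icc 1 N ∧ d ∣ n) :
    (S.card : ℝ) ≤ (N : ℝ) / d := by
  have h1 : S ⊆ (Ioc 0 N).filter (d ∣ ·) := fun n hn => by
    have := h n hn
    rw [Finset.mem_Icc] at this
    rw [Finset.mem_filter, Finset.mem_Ioc]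
    exact ⟨⟨by omega, this.1.2⟩, this.2⟩
  have h2 := Finset.card_le_card h1
  rw [Nat.Ioc_filter_dvd_card_eq_div] at h2
  calc (S.card : ℝ) ≤ ((N / d : ℕ) : ℝ) := by exact_mod_cast h2
    _ ≤ (N : ℝ) / d := Nat.cast_div_le

variable {κ N X m : ℕ} {W : ℝ}

lemma EV_of_AA (hW : ∑ k ∈ Icc 1 (X + 1), (1 : ℝ) / k ≤ W) {j : ℕ} (hX : N ^ (2 ^ j) ≤ X)
    (hA : ∀ s, s.Prime → Qt κ j ≤ s → ((AA κ N j s).card : ℝ) ≤ N * (2 * W) ^ j / s)
    (hW0 : 0 ≤ W) (D : ℕ) (hD : 0 < D) :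
    ((EV κ N j D).card : ℝ) ≤ N * (2 * W) ^ (j + 1) / D := by
  set T := ((Icc 1 X).filter (fun s => D ∣ s + 1)).filter (fun s => s.Prime ∧ Qt κ j ≤ s) with hT
  have h1 : ((EV κ N j D).card : ℝ) ≤ ∑ s ∈ T, ((AA κ N j s).card : ℝ) := by
    apply card_le_sum
    intro n hn
    rw [EV, Finset.mem_filter, Finset.mem_Icc] at hn
    obtain ⟨⟨hn1, hn2⟩, hG, s, hs, hQ, hd, hD'⟩ := hn
    refine ⟨s, ?_, ?_⟩
    · rw [hT, Finset.mem_filter, Finset.mem_filter, Finset.mem_Icc]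
      exact ⟨⟨⟨hs.pos, (Nat.le_of_dvd (it_pos (by omega) j) hd).trans ((it_le hn2 j).trans hX)⟩,
        hD'⟩, hs, hQ⟩
    · rw [AA, Finset.mem_filter, Finset.mem_Icc]
      exact ⟨⟨hn1, hn2⟩, hG, hd⟩
  refine h1.trans ?_
  have h2 : ∑ s ∈ T, ((AA κ N j s).card : ℝ)
      ≤ ∑ s ∈ (Icc 1 X).filter (fun s => D ∣ s + 1), N * (2 * W) ^ j * ((1 : ℝ) / s) := by
    refine (Finset.sum_le_sum (g := fun s : ℕ => N * (2 * W) ^ j * ((1 : ℝ) / s)) ?_).trans ?_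
    · intro s hs
      rw [hT, Finset.mem_filter] at hs
      refine (hA s hs.2.1 hs.2.2).trans (le_of_eq ?_)
      ring
    · apply Finset.sum_le_sum_of_subset_of_nonneg (Finset.filter_subset _ _)
      intro s _ _; positivity
  refine h2.trans ?_
  rw [← Finset.mul_sum]
  calc N * (2 * W) ^ j * ∑ s ∈ (Icc 1 X).filter (fun s => D ∣ s + 1), (1 : ℝ) / s
      ≤ N * (2 * W) ^ j * (2 * W / D) :=
        mul_le_mul_of_nonneg_left (sum_shift X D hD W hW) (by positivity)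
    _ = N * (2 * W) ^ (j + 1) / D := by rw [pow_succ]; ring

lemma AA_card (hκ : 1 ≤ κ) (hW : ∑ k ∈ Icc 1 (X + 1), (1 : ℝ) / k ≤ W) (hW0 : 0 ≤ W)
    (hX : ∀ j ≤ m, N ^ (2 ^ j) ≤ X) {j : ℕ} (hj : j ≤ m) {r : ℕ} (hr : r.Prime)
    (hQ : Qt κ j ≤ r) : ((AA κ N j r).card : ℝ) ≤ N * (2 * W) ^ j / r := by
  induction j generalizing r with
  | zero =>
    rw [pow_zero, mul_one]
    apply multiples N r hr.pos
    intro n hn
    rw [AA, Finset.mem_filter] at hn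
    exact ⟨hn.1, hn.2.2⟩
  | succ j ih =>
    have h1 : AA κ N (j + 1) r ⊆ EV κ N j r := by
      intro n hn
      rw [AA, Finset.mem_filter] at hn
      rw [EV, Finset.mem_filter]
      have h2 := G_succ.1 hn.2.1
      have h3 := Finset.mem_Icc.1 hn.1
      exact ⟨hn.1, h2.1, down' hκ (by omega) h2.2 hr hQ hn.2.2⟩
    have h2 : ((AA κ N (j + 1) r).card : ℝ) ≤ (EV κ N j r).card := by
      exact_mod_cast Finset.card_le_card h1
    exact h2.trans (EV_of_AA hW (hX j (by omega)) (fun s hs hs' => ih (by omega) hs hs') hW0 r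
      hr.pos)

lemma EV_card (hκ : 1 ≤ κ) (hW : ∑ k ∈ Icc 1 (X + 1), (1 : ℝ) / k ≤ W) (hW0 : 0 ≤ W)
    (hX : ∀ j ≤ m, N ^ (2 ^ j) ≤ X) {j : ℕ} (hj : j ≤ m) {D : ℕ} (hD : 0 < D) :
    ((EV κ N j D).card : ℝ) ≤ N * (2 * W) ^ (j + 1) / D :=
  EV_of_AA hW (hX j hj) (fun _ hs hs' => AA_card hκ hW hW0 hX hj hs hs') hW0 D hD

lemma EV2_of_AA2 (hW : ∑ k ∈ Icc 1 (X + 1), (1 : ℝ) / k ≤ W) {j : ℕ} (hX : N ^ (2 ^ j) ≤ X)
    (hA : ∀ s s', s.Prime → s'.Prime → s ≠ s' → Qt κ j ≤ s → Qt κ j ≤ s' →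
      ((AA2 κ N j s s').card : ℝ) ≤ (j + 1) * (N * (2 * W) ^ (2 * j)) / (s * s'))
    (hW0 : 0 ≤ W) (d d' : ℕ) (hd : 0 < d) (hd' : 0 < d') :
    ((EV2 κ N j d d').card : ℝ) ≤ (j + 1) * (N * (2 * W) ^ (2 * j + 2)) / (d * d') := by
  set T := ((Icc 1 X).filter (fun s => d ∣ s + 1) ×ˢ (Icc 1 X).filter (fun s => d' ∣ s + 1)) with
    hT
  set T' := T.filter (fun s => s.1.Prime ∧ s.2.Prime ∧ s.1 ≠ s.2 ∧ Qt κ j ≤ s.1 ∧ Qt κ j ≤ s.2)
    with hT'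
  have h1 : ((EV2 κ N j d d').card : ℝ) ≤ ∑ s ∈ T', ((AA2 κ N j s.1 s.2).card : ℝ) := by
    apply card_le_sum
    intro n hn
    rw [EV2, Finset.mem_filter, Finset.mem_Icc] at hn
    obtain ⟨⟨hn1, hn2⟩, hG, s, s', hs, hs', hne, hQ, hQ', hd1, hd2, hD, hD'⟩ := hn
    refine ⟨(s, s'), ?_, ?_⟩
    · rw [hT', Finset.mem_filter, hT, Finset.mem_product, Finset.mem_filter, Finset.mem_filter,
        Finset.mem_Icc, Finset.mem_Icc]
      exact ⟨⟨⟨⟨hs.pos, (Nat.le_of_dvd (it_pos (by omega) j) hd1).trans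
        ((it_le hn2 j).trans hX)⟩, hD⟩, ⟨hs'.pos, (Nat.le_of_dvd (it_pos (by omega) j) hd2).trans
        ((it_le hn2 j).trans hX)⟩, hD'⟩, hs, hs', hne, hQ, hQ'⟩
    · rw [AA2, Finset.mem_filter, Finset.mem_Icc]
      exact ⟨⟨hn1, hn2⟩, hG, hd1, hd2⟩
  refine h1.trans ?_
  have h2 : ∑ s ∈ T', ((AA2 κ N j s.1 s.2).card : ℝ)
      ≤ ∑ s ∈ T, (j + 1) * (N * (2 * W) ^ (2 * j)) * ((1 : ℝ) / s.1 * (1 / s.2)) := by
    refine (Finset.sum_le_sum (g := fun s : ℕ × ℕ =>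
      (j + 1) * (N * (2 * W) ^ (2 * j)) * ((1 : ℝ) / s.1 * (1 / s.2))) ?_).trans ?_
    · intro s hs
      rw [hT', Finset.mem_filter] at hs
      obtain ⟨-, p1, p2, p3, p4, p5⟩ := hs
      refine (hA s.1 s.2 p1 p2 p3 p4 p5).trans (le_of_eq ?_)
      rw [div_mul_div_comm, one_mul, mul_one_div]
    · apply Finset.sum_le_sum_of_subset_of_nonneg (Finset.filter_subset _ _)
      intro s _ _; positivity
  refine h2.trans ?_
  rw [← Finset.mul_sum, hT, Finset.sum_product]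
  dsimp only
  rw [← Finset.sum_mul_sum]
  have e1 := sum_shift X d hd W hW
  have e2 := sum_shift X d' hd' W hW
  have e3 : (0 : ℝ) ≤ ∑ s ∈ (Icc 1 X).filter (fun s => d' ∣ s + 1), (1 : ℝ) / s :=
    Finset.sum_nonneg fun s _ => by positivity
  calc (j + 1) * (N * (2 * W) ^ (2 * j)) *
        ((∑ s ∈ (Icc 1 X).filter (fun s => d ∣ s + 1), (1 : ℝ) / s) *
          ∑ s ∈ (Icc 1 X).filter (fun s => d' ∣ s + 1), (1 : ℝ) / s)
      ≤ (j + 1) * (N * (2 * W) ^ (2 * j)) * ((2 * W / d) * (2 * W / d')) := by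
        apply mul_le_mul_of_nonneg_left _ (by positivity)
        exact mul_le_mul e1 e2 e3 (by positivity)
    _ = (j + 1) * (N * (2 * W) ^ (2 * j + 2)) / (d * d') := by rw [pow_add]; ring

lemma AA2_card (hκ : 1 ≤ κ) (hW : ∑ k ∈ Icc 1 (X + 1), (1 : ℝ) / k ≤ W) (hW1 : 1 ≤ W)
    (hX : ∀ j ≤ m, N ^ (2 ^ j) ≤ X) {j : ℕ} (hj : j ≤ m) {r r' : ℕ} (hr : r.Prime)
    (hr' : r'.Prime) (hne : r ≠ r') (hQ : Qt κ j ≤ r) (hQ' : Qt κ j ≤ r') :
    ((AA2 κ N j r r').card : ℝ) ≤ (j + 1) * (N * (2 * W) ^ (2 * j)) / (r * r') := by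
  have hW0 : 0 ≤ W := by linarith
  induction j generalizing r r' with
  | zero =>
    have h1 := multiples N (r * r') (Nat.mul_pos hr.pos hr'.pos) (AA2 κ N 0 r r') (by
      intro n hn
      rw [AA2, Finset.mem_filter] at hn
      exact ⟨hn.1, (Nat.Coprime.mul_dvd_of_dvd_of_dvd
        ((Nat.coprime_primes hr hr').2 hne) hn.2.2.1 hn.2.2.2)⟩)
    push_cast at h1
    simpa using h1
  | succ j ih =>
    have h1 : AA2 κ N (j + 1) r r' ⊆ EV κ N j (r * r') ∪ EV2 κ N j r r' := by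
      intro n hn
      rw [AA2, Finset.mem_filter] at hn
      obtain ⟨hn0, hG, hd, hd'⟩ := hn
      have h2 := G_succ.1 hG
      have h3 := Finset.mem_Icc.1 hn0
      obtain ⟨s, p1, p2, p3, p4⟩ := down' hκ (by omega) h2.2 hr hQ hd
      obtain ⟨s', q1, q2, q3, q4⟩ := down' hκ (by omega) h2.2 hr' hQ' hd'
      rw [Finset.mem_union]
      by_cases hss : s = s'
      · left
        rw [EV, Finset.mem_filter]
        subst hss
        exact ⟨hn0, h2.1, s, p1, p2, p3, Nat.Coprime.mul_dvd_of_dvd_of_dvd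
          ((Nat.coprime_primes hr hr').2 hne) p4 q4⟩
      · right
        rw [EV2, Finset.mem_filter]
        exact ⟨hn0, h2.1, s, s', p1, q1, hss, p2, q2, p3, q3, p4, q4⟩
    have h2 : ((AA2 κ N (j + 1) r r').card : ℝ)
        ≤ (EV κ N j (r * r')).card + (EV2 κ N j r r').card := by
      exact_mod_cast (Finset.card_le_card h1).trans (Finset.card_union_le _ _)
    have h3 := EV_card hκ hW hW0 hX (j := j) (by omega) (Nat.mul_pos hr.pos hr'.pos)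
    have h4 := EV2_of_AA2 hW (hX j (by omega))
      (fun s s' a b c d e => ih (by omega) a b c d e) hW0 r r' hr.pos hr'.pos
    have hr0 : (0 : ℝ) < r := by exact_mod_cast hr.pos
    have hr0' : (0 : ℝ) < r' := by exact_mod_cast hr'.pos
    have h5 : (N : ℝ) * (2 * W) ^ (j + 1) ≤ N * (2 * W) ^ (2 * (j + 1)) := by
      apply mul_le_mul_of_nonneg_left _ (by positivity)
      exact pow_le_pow_right₀ (by linarith) (by omega)
    refine h2.trans ((add_le_add h3 h4).trans ?_)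
    push_cast
    rw [← add_div]
    apply div_le_div_of_nonneg_right _ (by positivity)
    have e : 2 * (j + 1) = 2 * j + 2 := by ring
    rw [e] at h5 ⊢
    nlinarith

lemma EV2_card (hκ : 1 ≤ κ) (hW : ∑ k ∈ Icc 1 (X + 1), (1 : ℝ) / k ≤ W) (hW1 : 1 ≤ W)
    (hX : ∀ j ≤ m, N ^ (2 ^ j) ≤ X) {j : ℕ} (hj : j ≤ m) {d d' : ℕ} (hd : 0 < d)
    (hd' : 0 < d') :
    ((EV2 κ N j d d').card : ℝ) ≤ (j + 1) * (N * (2 * W) ^ (2 * j + 2)) / (d * d') :=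
  EV2_of_AA2 hW (hX j hj)
    (fun _ _ a b c d e => AA2_card hκ hW hW1 hX hj a b c d e) (by linarith) d d' hd hd'

end

end Pool.MKP
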