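import Pool.Agent.H38.MKP.Main

/-!
# Iterates of the sum of divisors: the asymptotic form
-/

set_option autoImplicit false

namespace Pool.MKP

open ArithmeticFunction Finset

lemma growth (j : ℕ) : ∃ c d : ℕ, ∀ κ : ℕ, 1 ≤ κ →
    Kk κ j ≤ c * κ ^ (2 ^ j) ∧ Qt κ (j + 1) ≤ 2 ^ (d * κ ^ (2 ^ j)) := by
  induction j with
  | zero =>
    refine ⟨1, 4, fun κ hκ => ⟨by simp [Kk, KB], ?_⟩⟩
    have h1 : Qt κ 1 = 2 * 4 ^ κ + 1 := rfl
    have h2 : (4 : ℕ) ^ κ = 2 ^ (2 * κ) := by rw [pow_mul]; norm_num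
    have h3 : 1 ≤ (4 : ℕ) ^ κ := Nat.one_le_pow _ _ (by norm_num)
    rw [zero_add, h1]
    calc 2 * 4 ^ κ + 1 ≤ 2 ^ 2 * 4 ^ κ := by omega
      _ = 2 ^ (2 + 2 * κ) := by rw [h2, ← pow_add]
      _ ≤ 2 ^ (4 * κ ^ (2 ^ 0)) := by
          apply Nat.pow_le_pow_right (by norm_num)
          simp only [pow_zero, pow_one]; omega
  | succ j ih =>
    obtain ⟨c, d, h⟩ := ih
    refine ⟨c * (1 + d), 2 + 2 * d * c, fun κ hκ => ?_⟩
    obtain ⟨h1, h2⟩ := h κ hκ
    have e : κ ^ 2 ^ (j + 1) = κ ^ 2 ^ j * κ ^ 2 ^ j := by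
      rw [← pow_add]
      congr 1
      rw [pow_succ]; ring
    have h3 : κ ≤ κ ^ 2 ^ j := Nat.le_self_pow (by positivity) κ
    have h4 : 1 ≤ κ ^ 2 ^ (j + 1) := Nat.one_le_pow _ _ hκ
    constructor
    · rw [Kk_succ]
      have h5 : Nat.log 2 (Qt κ (j + 1)) ≤ d * κ ^ 2 ^ j := by
        calc Nat.log 2 (Qt κ (j + 1)) ≤ Nat.log 2 (2 ^ (d * κ ^ 2 ^ j)) := Nat.log_mono_right h2
          _ = d * κ ^ 2 ^ j := Nat.log_pow (by norm_num) _
      calc Kk κ j * (κ + Nat.log 2 (Qt κ (j + 1)))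
          ≤ (c * κ ^ 2 ^ j) * (κ ^ 2 ^ j + d * κ ^ 2 ^ j) :=
            Nat.mul_le_mul h1 (Nat.add_le_add h3 h5)
        _ = c * (1 + d) * κ ^ 2 ^ (j + 1) := by rw [e]; ring
    · have h6 : Qt κ (j + 1 + 1) = 2 * Bb κ (j + 1) + 1 := rfl
      have h7 : Bb κ (j + 1) ≤ 2 ^ (2 * d * c * κ ^ 2 ^ (j + 1)) := by
        rw [Bb_succ]
        calc (Qt κ (j + 1) ^ 2) ^ Kk κ j ≤ ((2 ^ (d * κ ^ 2 ^ j)) ^ 2) ^ Kk κ j :=
              Nat.pow_le_pow_left (Nat.pow_le_pow_left h2 2) _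
          _ ≤ ((2 ^ (d * κ ^ 2 ^ j)) ^ 2) ^ (c * κ ^ 2 ^ j) :=
              Nat.pow_le_pow_right (by positivity) h1
          _ = 2 ^ (2 * d * c * κ ^ 2 ^ (j + 1)) := by
              rw [← pow_mul, ← pow_mul, e]
              congr 1; ring
      have h8 : 1 ≤ 2 ^ (2 * d * c * κ ^ 2 ^ (j + 1)) := Nat.one_le_two_pow
      rw [h6]
      calc 2 * Bb κ (j + 1) + 1 ≤ 2 ^ 2 * 2 ^ (2 * d * c * κ ^ 2 ^ (j + 1)) := by omega
        _ = 2 ^ (2 + 2 * d * c * κ ^ 2 ^ (j + 1)) := by rw [← pow_add]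
        _ ≤ 2 ^ ((2 + 2 * d * c) * κ ^ 2 ^ (j + 1)) := by
            apply Nat.pow_le_pow_right (by norm_num)
            nlinarith

lemma Wbound (N m : ℕ) (hN : 1 ≤ N) :
    ∑ k ∈ Icc (1 : ℕ) (N ^ (2 ^ m) + 1), (1 : ℝ) / (k : ℝ)
      ≤ 2 ^ (m + 1) * (1 + Real.log N) := by
  have h1 : ∑ k ∈ Icc (1 : ℕ) (N ^ (2 ^ m) + 1), (1 : ℝ) / (k : ℝ)
      ≤ 1 + Real.log ((N ^ (2 ^ m) + 1 : ℕ) : ℝ) := by
    have h2 := harmonic_le_one_add_log (N ^ (2 ^ m) + 1)
    rw [harmonic_eq_sum_Icc] at h2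
    push_cast at h2 ⊢
    simp only [one_div]
    exact h2
  refine h1.trans ?_
  have hN' : (1 : ℝ) ≤ N := by exact_mod_cast hN
  have hlog : 0 ≤ Real.log N := Real.log_nonneg hN'
  have h3 : Real.log ((N ^ (2 ^ m) + 1 : ℕ) : ℝ) ≤ 1 + 2 ^ m * Real.log N := by
    have h4 : ((N ^ (2 ^ m) + 1 : ℕ) : ℝ) ≤ 2 * (N : ℝ) ^ (2 ^ m) := by
      push_cast
      have : (1 : ℝ) ≤ (N : ℝ) ^ (2 ^ m) := one_le_pow₀ hN'
      linarith
    calc Real.log ((N ^ (2 ^ m) + 1 : ℕ) : ℝ) ≤ Real.log (2 * (N : ℝ) ^ (2 ^ m)) :=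
          Real.log_le_log (by positivity) h4
      _ = Real.log 2 + 2 ^ m * Real.log N := by
          rw [Real.log_mul (by norm_num) (by positivity), Real.log_pow]
          push_cast; ring
      _ ≤ 1 + 2 ^ m * Real.log N := by
          have := Real.log_two_lt_d9
          linarith
  have h5 : (1 : ℝ) ≤ 2 ^ m := one_le_pow₀ (by norm_num)
  rw [pow_succ]
  nlinarith

/-- the tail of the distribution of the common divisor -/
theorem gcd_tail (m : ℕ) (hm : 1 ≤ m) : ∃ C : ℝ, 0 < C ∧ ∀ N k : ℕ, 1 ≤ k →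
    (((Icc 1 N).filter fun n =>
      Real.exp (C * (k : ℝ) ^ (2 ^ (m - 1) + 1)) < (Nat.gcd n (it m n) : ℝ)).card : ℝ)
      ≤ C * N * (1 + Real.log N) ^ (2 * m + 2) / 2 ^ k := by
  obtain ⟨c0, d, hd⟩ := growth (m - 1)
  have hm' : m - 1 + 1 = m := by omega
  rw [hm'] at hd
  set C0 : ℝ := (m * (m + 4) : ℝ) * (2 ^ (m + 2)) ^ (2 * m + 2) with hC0
  have hC00 : 0 ≤ C0 := by positivity
  refine ⟨C0 + d + 1, by positivity, ?_⟩
  intro N k hk
  rcases Nat.eq_zero_or_pos N with hN | hN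
  · rw [hN]; simp
  have hN' : (1 : ℝ) ≤ N := by exact_mod_cast hN
  have hlog : 0 ≤ Real.log N := Real.log_nonneg hN'
  have hW := Wbound N m hN
  set W : ℝ := 2 ^ (m + 1) * (1 + Real.log N) with hWdef
  have hW1 : 1 ≤ W := by
    have : (1 : ℝ) ≤ 2 ^ (m + 1) := one_le_pow₀ (by norm_num)
    rw [hWdef]; nlinarith
  have hX : ∀ j ≤ m, N ^ (2 ^ j) ≤ N ^ (2 ^ m) := fun j hj =>
    Nat.pow_le_pow_right hN (Nat.pow_le_pow_right (by norm_num) hj)
  have h1 := Large_card (κ := k) hk hW hW1 hm hX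
  have h2 : ((Icc 1 N).filter fun n =>
      Real.exp ((C0 + d + 1) * (k : ℝ) ^ (2 ^ (m - 1) + 1)) < (Nat.gcd n (it m n) : ℝ))
      ⊆ Large k N m := by
    classical
    intro n hn
    rw [Finset.mem_filter] at hn
    rw [Large, Finset.mem_filter]
    refine ⟨hn.1, m, hm, le_rfl, ?_⟩
    have h3 : ((Qt k m ^ k : ℕ) : ℝ) ≤ Real.exp ((C0 + d + 1) * (k : ℝ) ^ (2 ^ (m - 1) + 1)) := by
      have h4 : Qt k m ^ k ≤ 2 ^ (d * k ^ (2 ^ (m - 1) + 1)) := by
        calc Qt k m ^ k ≤ (2 ^ (d * k ^ (2 ^ (m - 1)))) ^ k := Nat.pow_le_pow_left (hd k hk).2 k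
          _ = 2 ^ (d * k ^ (2 ^ (m - 1) + 1)) := by rw [← pow_mul]; congr 1; ring
      calc ((Qt k m ^ k : ℕ) : ℝ) ≤ ((2 ^ (d * k ^ (2 ^ (m - 1) + 1)) : ℕ) : ℝ) := by
            exact_mod_cast h4
        _ = (2 : ℝ) ^ (d * k ^ (2 ^ (m - 1) + 1)) := by push_cast; rfl
        _ ≤ (Real.exp 1) ^ (d * k ^ (2 ^ (m - 1) + 1)) := by
            apply pow_le_pow_left₀ (by norm_num)
            have := Real.add_one_le_exp (1 : ℝ)
            linarith
        _ = Real.exp ((d : ℝ) * (k : ℝ) ^ (2 ^ (m - 1) + 1)) := by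
            rw [← Real.exp_nat_mul]; push_cast; ring_nf
        _ ≤ _ := by
            apply Real.exp_le_exp.2
            apply mul_le_mul_of_nonneg_right _ (by positivity)
            linarith
    exact_mod_cast h3.trans_lt hn.2
  have h3 : (((Icc 1 N).filter fun n =>
      Real.exp ((C0 + d + 1) * (k : ℝ) ^ (2 ^ (m - 1) + 1)) < (Nat.gcd n (it m n) : ℝ)).card : ℝ)
      ≤ (Large k N m).card := by exact_mod_cast Finset.card_le_card h2
  refine h3.trans (h1.trans ?_)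
  apply div_le_div_of_nonneg_right _ (by positivity)
  have h4 : 2 * W = 2 ^ (m + 2) * (1 + Real.log N) := by rw [hWdef]; ring
  rw [h4, mul_pow]
  calc (m * (m + 4) : ℝ) * (N * ((2 ^ (m + 2)) ^ (2 * m + 2) * (1 + Real.log N) ^ (2 * m + 2)))
      = C0 * (N * (1 + Real.log N) ^ (2 * m + 2)) := by rw [hC0]; ring
    _ ≤ (C0 + d + 1) * (N * (1 + Real.log N) ^ (2 * m + 2)) := by
        apply mul_le_mul_of_nonneg_right _ (by positivity)
        have : (0 : ℝ) ≤ d := by positivity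
        linarith
    _ = (C0 + d + 1) * N * (1 + Real.log N) ^ (2 * m + 2) := by ring

lemma poly_le_exp (T n : ℕ) (hT : T ≠ 0) (a : ℝ) (ha : 0 < a) :
    ∃ K : ℝ, 0 < K ∧ ∀ z : ℝ, 0 ≤ z → (1 + z ^ T) ^ n ≤ K * Real.exp (a * z) := by
  refine ⟨(T * n).factorial * Real.exp a / a ^ (T * n), by positivity, fun z hz => ?_⟩
  have h1 : 1 + z ^ T ≤ (1 + z) ^ T := by
    have := pow_add_pow_le (zero_le_one' ℝ) hz hT
    rwa [one_pow] at this
  have h2 : (1 + z ^ T) ^ n ≤ (1 + z) ^ (T * n) := by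
    rw [pow_mul]
    exact pow_le_pow_left₀ (by positivity) h1 n
  have h3 := Real.pow_div_factorial_le_exp (x := a * (1 + z)) (by positivity) (T * n)
  rw [mul_pow, div_le_iff₀ (by positivity)] at h3
  refine h2.trans ?_
  rw [div_mul_eq_mul_div, le_div_iff₀ (by positivity)]
  calc (1 + z) ^ (T * n) * a ^ (T * n) = a ^ (T * n) * (1 + z) ^ (T * n) := by ring
    _ ≤ Real.exp (a * (1 + z)) * (T * n).factorial := h3
    _ = (T * n).factorial * Real.exp a * Real.exp (a * z) := by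
        rw [mul_add, mul_one, Real.exp_add]; ring

/-- the count of the solutions -/
theorem sparse (m : ℕ) (hm : 1 ≤ m) : ∃ c C : ℝ, 0 < c ∧ 0 < C ∧ ∀ N : ℕ, 1 ≤ N →
    (((Icc 1 N).filter fun n => n ∣ it m n).card : ℝ)
      ≤ C * N * Real.exp (-c * Real.log N ^ ((1 : ℝ) / (2 ^ (m - 1) + 1))) := by
  obtain ⟨C, hC, h⟩ := gcd_tail m hm
  set T : ℕ := 2 ^ (m - 1) + 1 with hT
  have hT0 : T ≠ 0 := Nat.succ_ne_zero _
  set β : ℝ := (1 / (2 * C)) ^ ((1 : ℝ) / T) with hβ
  have hβ0 : 0 < β := Real.rpow_pos_of_pos (by positivity) _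
  set a : ℝ := β * Real.log 2 / 2 with ha
  have hl2 : 0 < Real.log 2 := Real.log_pos (by norm_num)
  have ha0 : 0 < a := by positivity
  obtain ⟨K, hK, hpoly⟩ := poly_le_exp T (2 * m + 2) hT0 a ha0
  set c : ℝ := min (1 / 2) a with hc
  have hc0 : 0 < c := lt_min (by norm_num) ha0
  refine ⟨c, Real.exp 1 + 2 * C * K + Real.exp (1 / β), hc0, by positivity, ?_⟩
  intro N hN
  have hN' : (1 : ℝ) ≤ N := by exact_mod_cast hN
  have hN0 : (0 : ℝ) < N := by linarith
  have hlog : 0 ≤ Real.log N := Real.log_nonneg hN'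
  have eT : ((1 : ℝ) / (2 ^ (m - 1) + 1)) = 1 / (T : ℝ) := by rw [hT]; push_cast; ring
  rw [eT]
  set z : ℝ := Real.log N ^ ((1 : ℝ) / T) with hz
  have hz0 : 0 ≤ z := Real.rpow_nonneg hlog _
  have hzT : z ^ T = Real.log N := by
    rw [hz, ← Real.rpow_natCast, ← Real.rpow_mul hlog, one_div,
      inv_mul_cancel₀ (by exact_mod_cast hT0), Real.rpow_one]
  have hβT : β ^ T = 1 / (2 * C) := by
    rw [hβ, ← Real.rpow_natCast, ← Real.rpow_mul (by positivity), one_div (T : ℝ),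
      inv_mul_cancel₀ (by exact_mod_cast hT0), Real.rpow_one]
  set k : ℕ := ⌊β * z⌋₊ with hk
  have hE : 0 < Real.exp (-c * z) := Real.exp_pos _
  rcases Nat.eq_zero_or_pos k with hk0 | hk1
  · -- small N
    have h1 : β * z < 1 := by
      rw [hk] at hk0
      exact Nat.floor_eq_zero.1 hk0
    have h2 : z < 1 / β := by rw [lt_div_iff₀ hβ0]; linarith
    have h3 : (((Icc 1 N).filter fun n => n ∣ it m n).card : ℝ) ≤ N := by
      have := Finset.card_filter_le (Icc 1 N) (fun n => n ∣ it m n)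
      rw [Nat.card_Icc, Nat.add_sub_cancel] at this
      exact_mod_cast this
    refine h3.trans ?_
    have h4 : 1 ≤ Real.exp (1 / β) * Real.exp (-c * z) := by
      rw [← Real.exp_add]
      apply Real.one_le_exp
      have : c * z ≤ 1 * z := mul_le_mul_of_nonneg_right
        ((min_le_left _ _).trans (by norm_num)) hz0
      linarith
    calc (N : ℝ) = N * 1 := by ring
      _ ≤ N * (Real.exp (1 / β) * Real.exp (-c * z)) := mul_le_mul_of_nonneg_left h4 hN0.le
      _ = Real.exp (1 / β) * N * Real.exp (-c * z) := by ring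
      _ ≤ (Real.exp 1 + 2 * C * K + Real.exp (1 / β)) * N * Real.exp (-c * z) := by
          apply mul_le_mul_of_nonneg_right _ hE.le
          apply mul_le_mul_of_nonneg_right _ hN0.le
          have : 0 < Real.exp 1 + 2 * C * K := by positivity
          linarith
  · have hkz : (k : ℝ) ≤ β * z := Nat.floor_le (by positivity)
    have hkz' : β * z < k + 1 := Nat.lt_floor_add_one _
    have h1 := h N k hk1
    have hexp : Real.exp (C * (k : ℝ) ^ T) ≤ Real.exp (Real.log N / 2) := by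
      apply Real.exp_le_exp.2
      have h2 : (k : ℝ) ^ T ≤ (β * z) ^ T := pow_le_pow_left₀ (by positivity) hkz T
      rw [mul_pow, hβT, hzT] at h2
      calc C * (k : ℝ) ^ T ≤ C * (1 / (2 * C) * Real.log N) := mul_le_mul_of_nonneg_left h2 hC.le
        _ = Real.log N / 2 := by field_simp
    have hsub : ((Icc 1 N).filter fun n => n ∣ it m n)
        ⊆ (Icc 1 ⌊Real.exp (Real.log N / 2)⌋₊) ∪ ((Icc 1 N).filter fun n =>
          Real.exp (C * (k : ℝ) ^ T) < (Nat.gcd n (it m n) : ℝ)) := by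
      intro n hn
      rw [Finset.mem_filter] at hn
      rw [Finset.mem_union]
      by_cases h3 : n ≤ ⌊Real.exp (Real.log N / 2)⌋₊
      · left
        rw [Finset.mem_Icc] at hn ⊢
        exact ⟨hn.1.1, h3⟩
      · right
        rw [Finset.mem_filter]
        refine ⟨hn.1, ?_⟩
        rw [Nat.gcd_eq_left hn.2]
        have := Nat.lt_of_floor_lt (not_le.1 h3)
        exact hexp.trans_lt this
    have hcard : (((Icc 1 N).filter fun n => n ∣ it m n).card : ℝ)
        ≤ Real.exp (Real.log N / 2) + C * N * (1 + Real.log N) ^ (2 * m + 2) / 2 ^ k := by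
      have h3 := (Finset.card_le_card hsub).trans (Finset.card_union_le _ _)
      have h4 : (((Icc 1 N).filter fun n => n ∣ it m n).card : ℝ)
          ≤ ((Icc 1 ⌊Real.exp (Real.log N / 2)⌋₊).card : ℝ) + (((Icc 1 N).filter fun n =>
          Real.exp (C * (k : ℝ) ^ T) < (Nat.gcd n (it m n) : ℝ)).card : ℝ) := by
        exact_mod_cast h3
      have h5 : ((Icc 1 ⌊Real.exp (Real.log N / 2)⌋₊).card : ℝ) ≤ Real.exp (Real.log N / 2) := by
        rw [Nat.card_Icc, Nat.add_sub_cancel]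
        exact Nat.floor_le (Real.exp_pos _).le
      linarith
    refine hcard.trans ?_
    -- the first term
    have hNexp : (N : ℝ) = Real.exp (Real.log N) := (Real.exp_log hN0).symm
    have hzTz : z - 1 ≤ z ^ T := by
      rcases le_total z 1 with h3 | h3
      · have : 0 ≤ z ^ T := by positivity
        linarith
      · have : z ^ 1 ≤ z ^ T := pow_le_pow_right₀ h3 (Nat.one_le_iff_ne_zero.2 hT0)
        rw [pow_one] at this; linarith
    have t1 : Real.exp (Real.log N / 2) ≤ Real.exp 1 * N * Real.exp (-c * z) := by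
      calc Real.exp (Real.log N / 2) ≤ Real.exp (1 + Real.log N + -c * z) := by
            apply Real.exp_le_exp.2
            rw [hzT] at hzTz
            have : c * z ≤ 1 / 2 * z := mul_le_mul_of_nonneg_right (min_le_left _ _) hz0
            linarith
        _ = Real.exp 1 * N * Real.exp (-c * z) := by
            rw [Real.exp_add, Real.exp_add, Real.exp_log hN0]
    have t2 : C * N * (1 + Real.log N) ^ (2 * m + 2) / 2 ^ k
        ≤ 2 * C * K * N * Real.exp (-c * z) := by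
      have h3 := hpoly z hz0
      rw [hzT] at h3
      have h4 : (1 : ℝ) / 2 ^ k ≤ 2 * Real.exp (-(2 * a * z)) := by
        have h5 : (2 : ℝ) ^ k = Real.exp (k * Real.log 2) := by
          rw [Real.exp_nat_mul, Real.exp_log (by norm_num)]
        have h6 : (2 : ℝ) = Real.exp (Real.log 2) := (Real.exp_log (by norm_num)).symm
        rw [one_div, h5, ← Real.exp_neg]
        calc Real.exp (-(k * Real.log 2)) ≤ Real.exp (Real.log 2 + -(2 * a * z)) := by
              apply Real.exp_le_exp.2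
              rw [ha]
              nlinarith
          _ = 2 * Real.exp (-(2 * a * z)) := by rw [Real.exp_add, ← h6]
      have hca : c * z ≤ a * z := mul_le_mul_of_nonneg_right (min_le_right _ _) hz0
      calc C * N * (1 + Real.log N) ^ (2 * m + 2) / 2 ^ k
          = C * N * (1 + Real.log N) ^ (2 * m + 2) * (1 / 2 ^ k) := by ring
        _ ≤ C * N * (K * Real.exp (a * z)) * (2 * Real.exp (-(2 * a * z))) := by
            apply mul_le_mul _ h4 (by positivity) (by positivity)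
            exact mul_le_mul_of_nonneg_left h3 (by positivity)
        _ = 2 * C * K * N * Real.exp (-(a * z)) := by
            have : Real.exp (-(a * z)) = Real.exp (a * z) * Real.exp (-(2 * a * z)) := by
              rw [← Real.exp_add]; congr 1; ring
            rw [this]; ring
        _ ≤ 2 * C * K * N * Real.exp (-c * z) := by
            apply mul_le_mul_of_nonneg_left _ (by positivity)
            apply Real.exp_le_exp.2
            linarith
    have t3 : 0 ≤ Real.exp (1 / β) * N * Real.exp (-c * z) := by positivity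
    calc _ ≤ Real.exp 1 * N * Real.exp (-c * z) + 2 * C * K * N * Real.exp (-c * z) :=
          add_le_add t1 t2
      _ ≤ (Real.exp 1 + 2 * C * K + Real.exp (1 / β)) * N * Real.exp (-c * z) := by
          rw [add_mul, add_mul, add_mul, add_mul]
          linarith

end Pool.MKP
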