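import Pool.Agent.H38.MKP.Step

/-!
# Iterates of the sum of divisors: the common divisors of `n` and its iterates
-/

set_option autoImplicit false

namespace Pool.MKP

open ArithmeticFunction Finset

open scoped Classical in
section

variable {κ N X m : ℕ} {W : ℝ}

lemma Bad_zero_card (hκ : 1 ≤ κ) (hW : ∑ k ∈ Icc 1 N, (1 : ℝ) / k ≤ W) (hW1 : 1 ≤ W) :
    ((Bad κ N 0).card : ℝ) ≤ N * (2 * W) ^ 2 / 2 ^ κ := by
  set D : ℕ → ℕ := fun q => if 2 ^ κ < q then q ^ 2 else q ^ (Nat.log q (4 ^ κ) + 1) with hD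
  set S1 := (Icc 1 N).filter fun n => κ < n.primeFactors.card with hS1
  set F : ℕ → Finset ℕ := fun q => (Icc 1 N).filter fun n => D q ∣ n with hF
  have h1 : Bad κ N 0 ⊆ S1 ∪ (Ico 2 (N + 1)).biUnion F := by
    intro n hn
    rw [Bad, Finset.mem_filter] at hn
    obtain ⟨hn0, -, hnP⟩ := hn
    have hn1 := Finset.mem_Icc.1 hn0
    rw [Finset.mem_union]
    by_contra hnot
    rw [not_or] at hnot
    apply hnP
    constructor
    · by_contra h
      apply hnot.1
      rw [hS1, Finset.mem_filter]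
      exact ⟨hn0, not_le.1 h⟩
    · intro q hq h2
      by_contra h3
      apply hnot.2
      rw [it_zero] at hq h2 h3
      have hqp := Nat.prime_of_mem_primeFactors hq
      have hqd := Nat.dvd_of_mem_primeFactors hq
      have h4 : q ^ n.factorization q ∣ n := Nat.ordProj_dvd _ _
      rw [Finset.mem_biUnion]
      refine ⟨q, Finset.mem_Ico.2 ⟨hqp.two_le, ?_⟩, ?_⟩
      · have := Nat.le_of_dvd (by omega) hqd
        omega
      · rw [hF]
        simp only [Finset.mem_filter]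
        refine ⟨hn0, ?_⟩
        rw [hD]
        simp only
        split_ifs with h5
        · exact (pow_dvd_pow q h2).trans h4
        · refine (pow_dvd_pow q ?_).trans h4
          have h6 : 4 ^ κ < q ^ n.factorization q := not_le.1 h3
          have := Nat.log_lt_of_lt_pow (pow_pos (by norm_num : 0 < 4) κ).ne' h6
          omega
  have hN0 : (0 : ℝ) ≤ N := by positivity
  have h2 : (S1.card : ℝ) ≤ N * W ^ 2 / 2 ^ κ := by
    have h3 := sum_omega N κ W hW
    have h4 : (S1.card : ℝ) ≤ ∑ t ∈ S1, (N : ℝ) * (1 / t) := by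
      rw [Finset.card_eq_sum_ones]
      push_cast
      apply Finset.sum_le_sum
      intro t ht
      rw [hS1, Finset.mem_filter, Finset.mem_Icc] at ht
      have ht0 : (0 : ℝ) < t := by exact_mod_cast ht.1.1
      have ht1 : (t : ℝ) ≤ N := by exact_mod_cast ht.1.2
      rw [mul_one_div, le_div_iff₀ ht0]
      linarith
    rw [← Finset.mul_sum] at h4
    calc (S1.card : ℝ) ≤ N * ∑ t ∈ S1, (1 : ℝ) / t := h4
      _ ≤ N * (W ^ 2 / 2 ^ κ) := mul_le_mul_of_nonneg_left h3 hN0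
      _ = N * W ^ 2 / 2 ^ κ := by ring
  have h3 : (((Ico 2 (N + 1)).biUnion F).card : ℝ) ≤ N * 2 / 2 ^ κ := by
    have h4 : (((Ico 2 (N + 1)).biUnion F).card : ℝ) ≤ ∑ q ∈ Ico 2 (N + 1), ((F q).card : ℝ) := by
      exact_mod_cast Finset.card_biUnion_le
    have h5 : ∀ q ∈ Ico 2 (N + 1), ((F q).card : ℝ)
        ≤ (if 2 ^ κ < q then (N : ℝ) * (1 / (q : ℝ) ^ 2) else 0)
          + (if 2 ^ κ < q then 0 else (N : ℝ) / 4 ^ κ) := by
      intro q hq
      rw [Finset.mem_Ico] at hq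
      have hq0 : 0 < q := by omega
      have hDpos : 0 < D q := by
        rw [hD]; simp only; split_ifs <;> exact pow_pos hq0 _
      have h6 := multiples N (D q) hDpos (F q) (by
        intro n hn
        rw [hF] at hn
        simp only [Finset.mem_filter] at hn
        exact hn)
      refine h6.trans ?_
      rw [hD]
      simp only
      split_ifs with h7
      · push_cast
        rw [add_zero, mul_one_div]
      · rw [zero_add]
        apply div_le_div_of_nonneg_left hN0 (by positivity)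
        have : 4 ^ κ < q ^ (Nat.log q (4 ^ κ) + 1) := Nat.lt_pow_succ_log_self (by omega) _
        exact_mod_cast this.le
    refine h4.trans ((Finset.sum_le_sum h5).trans ?_)
    rw [Finset.sum_add_distrib, ← Finset.sum_filter]
    have h6 : ∑ q ∈ (Ico 2 (N + 1)).filter (fun q => 2 ^ κ < q), (N : ℝ) * (1 / (q : ℝ) ^ 2)
        ≤ (N : ℝ) / 2 ^ κ := by
      rw [← Finset.mul_sum]
      have h7 : ∑ q ∈ (Ico 2 (N + 1)).filter (fun q => 2 ^ κ < q), (1 : ℝ) / (q : ℝ) ^ 2
          ≤ ∑ q ∈ Ico (2 ^ κ + 1) (N + 1), (1 : ℝ) / (q : ℝ) ^ 2 := by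
        apply Finset.sum_le_sum_of_subset_of_nonneg
        · intro q hq
          rw [Finset.mem_filter, Finset.mem_Ico] at hq
          rw [Finset.mem_Ico]
          omega
        · intro q _ _; positivity
      have h8 := sum_sq_tail (2 ^ κ + 1) (N + 1) (by
        have : 1 ≤ 2 ^ κ := Nat.one_le_two_pow
        omega)
      push_cast at h8
      rw [add_sub_cancel_right] at h8
      calc (N : ℝ) * ∑ q ∈ (Ico 2 (N + 1)).filter (fun q => 2 ^ κ < q), (1 : ℝ) / (q : ℝ) ^ 2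
          ≤ N * (1 / 2 ^ κ) := mul_le_mul_of_nonneg_left (h7.trans h8) hN0
        _ = N / 2 ^ κ := by ring
    have h9 : ∑ q ∈ Ico 2 (N + 1), (if 2 ^ κ < q then (0 : ℝ) else (N : ℝ) / 4 ^ κ)
        ≤ N / 2 ^ κ := by
      have h10 : ∑ q ∈ Ico 2 (N + 1), (if 2 ^ κ < q then (0 : ℝ) else (N : ℝ) / 4 ^ κ)
          = ∑ q ∈ (Ico 2 (N + 1)).filter (fun q => ¬ 2 ^ κ < q), (N : ℝ) / 4 ^ κ := by
        rw [Finset.sum_filter]
        apply Finset.sum_congr rfl
        intro q _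
        split_ifs <;> rfl
      rw [h10, Finset.sum_const, nsmul_eq_mul]
      have h11 : ((Ico 2 (N + 1)).filter (fun q => ¬ 2 ^ κ < q)).card ≤ 2 ^ κ := by
        calc ((Ico 2 (N + 1)).filter (fun q => ¬ 2 ^ κ < q)).card
            ≤ (Icc 1 (2 ^ κ)).card := by
              apply Finset.card_le_card
              intro q hq
              rw [Finset.mem_filter, Finset.mem_Ico] at hq
              rw [Finset.mem_Icc]
              omega
          _ = 2 ^ κ := by rw [Nat.card_Icc, Nat.add_sub_cancel]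
      have h12 : (((Ico 2 (N + 1)).filter (fun q => ¬ 2 ^ κ < q)).card : ℝ) ≤ 2 ^ κ := by
        exact_mod_cast h11
      calc (((Ico 2 (N + 1)).filter (fun q => ¬ 2 ^ κ < q)).card : ℝ) * (N / 4 ^ κ)
          ≤ 2 ^ κ * (N / 4 ^ κ) := mul_le_mul_of_nonneg_right h12 (by positivity)
        _ = N / 2 ^ κ := by
            have e : (4 : ℝ) ^ κ = 2 ^ κ * 2 ^ κ := by rw [← mul_pow]; norm_num
            rw [e]
            have : (2 : ℝ) ^ κ ≠ 0 := by positivity
            field_simp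
    calc _ ≤ (N : ℝ) / 2 ^ κ + N / 2 ^ κ := add_le_add h6 h9
      _ = N * 2 / 2 ^ κ := by ring
  have h4 : ((Bad κ N 0).card : ℝ) ≤ S1.card + ((Ico 2 (N + 1)).biUnion F).card := by
    exact_mod_cast (Finset.card_le_card h1).trans (Finset.card_union_le _ _)
  calc ((Bad κ N 0).card : ℝ) ≤ N * W ^ 2 / 2 ^ κ + N * 2 / 2 ^ κ := by linarith
    _ = N * (W ^ 2 + 2) / 2 ^ κ := by ring
    _ ≤ N * (2 * W) ^ 2 / 2 ^ κ := by
        apply div_le_div_of_nonneg_right _ (by positivity)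
        apply mul_le_mul_of_nonneg_left _ hN0
        nlinarith

noncomputable def DD (κ N j p r : ℕ) : Finset ℕ :=
  (Icc 1 N).filter fun n => G κ j n ∧ p ∣ n ∧ r ∣ it j n

lemma prime_succ {p r s : ℕ} (hp : p.Prime) (hp3 : 5 ≤ p) (hs : s.Prime) (hr : r.Prime)
    (hpr : p ≤ r) (h : r ∣ s + 1) : p < s ∧ r < s := by
  have h1 := Nat.le_of_dvd (by omega) h
  have h2 : s ≠ r - 1 := by
    intro h3
    rcases hr.eq_two_or_odd with h4 | h4
    · omega
    · rcases hs.eq_two_or_odd with h5 | h5 <;> omega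
  obtain ⟨k, hk⟩ := h
  have h3 : s ≠ r := by
    intro h4
    have : r ∣ 1 := by
      have h5 : r ∣ r + 1 := by rw [h4] at hk; exact ⟨k, hk⟩
      exact (Nat.dvd_add_right (dvd_refl r)).1 h5
    exact hr.one_lt.ne' (Nat.dvd_one.1 this)
  omega

lemma DD_card (hκ : 1 ≤ κ) (hW : ∑ k ∈ Icc 1 (X + 1), (1 : ℝ) / k ≤ W) (hW0 : 0 ≤ W)
    (hX : ∀ j ≤ m, N ^ (2 ^ j) ≤ X) {p : ℕ} (hp : p.Prime) (hp3 : 5 ≤ p) {j : ℕ} (hj : j ≤ m)
    {r : ℕ} (hr : r.Prime) (hpr : p < r) (hQ : Qt κ j ≤ r) :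
    ((DD κ N j p r).card : ℝ) ≤ N * (2 * W) ^ j / (p * r) := by
  have hp0 : (0 : ℝ) < p := by exact_mod_cast hp.pos
  induction j generalizing r with
  | zero =>
    have h1 := multiples N (p * r) (Nat.mul_pos hp.pos hr.pos) (DD κ N 0 p r) (by
      intro n hn
      rw [DD, Finset.mem_filter] at hn
      exact ⟨hn.1, (Nat.Coprime.mul_dvd_of_dvd_of_dvd
        ((Nat.coprime_primes hp hr).2 hpr.ne) hn.2.2.1 hn.2.2.2)⟩)
    push_cast at h1
    rw [pow_zero, mul_one]
    exact h1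
  | succ j ih =>
    set T := ((Icc 1 X).filter (fun s => r ∣ s + 1)).filter
      (fun s => s.Prime ∧ p < s ∧ Qt κ j ≤ s) with hT
    have h1 : ((DD κ N (j + 1) p r).card : ℝ) ≤ ∑ s ∈ T, ((DD κ N j p s).card : ℝ) := by
      apply card_le_sum
      intro n hn
      rw [DD, Finset.mem_filter] at hn
      obtain ⟨hn0, hG, hd, hd'⟩ := hn
      have h2 := G_succ.1 hG
      have h3 := Finset.mem_Icc.1 hn0
      obtain ⟨s, p1, p2, p3, p4⟩ := down' hκ (by omega) h2.2 hr hQ hd'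
      refine ⟨s, ?_, ?_⟩
      · rw [hT, Finset.mem_filter, Finset.mem_filter, Finset.mem_Icc]
        exact ⟨⟨⟨p1.pos, (Nat.le_of_dvd (it_pos (by omega) j) p3).trans
          ((it_le h3.2 j).trans (hX j (by omega)))⟩, p4⟩, p1,
          (prime_succ hp hp3 p1 hr hpr.le p4).1, p2⟩
      · rw [DD, Finset.mem_filter]
        exact ⟨hn0, h2.1, hd, p3⟩
    refine h1.trans ?_
    have h2 : ∑ s ∈ T, ((DD κ N j p s).card : ℝ)
        ≤ ∑ s ∈ (Icc 1 X).filter (fun s => r ∣ s + 1), N * (2 * W) ^ j / p * ((1 : ℝ) / s) := by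
      refine (Finset.sum_le_sum (g := fun s : ℕ => N * (2 * W) ^ j / p * ((1 : ℝ) / s)) ?_).trans ?_
      · intro s hs
        rw [hT, Finset.mem_filter] at hs
        refine (ih (by omega) hs.2.1 hs.2.2.1 hs.2.2.2).trans (le_of_eq ?_)
        rw [mul_one_div, div_div]
      · apply Finset.sum_le_sum_of_subset_of_nonneg (Finset.filter_subset _ _)
        intro s _ _; positivity
    refine h2.trans ?_
    rw [← Finset.mul_sum]
    calc N * (2 * W) ^ j / p * ∑ s ∈ (Icc 1 X).filter (fun s => r ∣ s + 1), (1 : ℝ) / s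
        ≤ N * (2 * W) ^ j / p * (2 * W / r) :=
          mul_le_mul_of_nonneg_left (sum_shift X r hr.pos W hW) (by positivity)
      _ = N * (2 * W) ^ (j + 1) / (p * r) := by rw [pow_succ]; field_simp

noncomputable def FF (κ N j p : ℕ) : Finset ℕ :=
  (Icc 1 N).filter fun n => G κ (j + 1) n ∧ p ∣ n ∧ p ∣ it (j + 1) n

lemma FF_card (hκ : 1 ≤ κ) (hW : ∑ k ∈ Icc 1 (X + 1), (1 : ℝ) / k ≤ W) (hW0 : 0 ≤ W)
    (hX : ∀ j ≤ m, N ^ (2 ^ j) ≤ X) {p : ℕ} (hp : p.Prime) (hp3 : 5 ≤ p) {j : ℕ} (hj : j ≤ m)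
    (hQ : Qt κ (j + 1) ≤ p) :
    ((FF κ N j p).card : ℝ) ≤ N * (2 * W) ^ (j + 1) * (1 / (p : ℝ) ^ 2) := by
  have hp0 : (0 : ℝ) < p := by exact_mod_cast hp.pos
  set T := ((Icc 1 X).filter (fun s => p ∣ s + 1)).filter
    (fun s => s.Prime ∧ p < s ∧ Qt κ j ≤ s) with hT
  have h1 : ((FF κ N j p).card : ℝ) ≤ ∑ s ∈ T, ((DD κ N j p s).card : ℝ) := by
    apply card_le_sum
    intro n hn
    rw [FF, Finset.mem_filter] at hn
    obtain ⟨hn0, hG, hd, hd'⟩ := hn
    have h2 := G_succ.1 hG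
    have h3 := Finset.mem_Icc.1 hn0
    obtain ⟨s, p1, p2, p3, p4⟩ := down' hκ (by omega) h2.2 hp hQ hd'
    refine ⟨s, ?_, ?_⟩
    · rw [hT, Finset.mem_filter, Finset.mem_filter, Finset.mem_Icc]
      exact ⟨⟨⟨p1.pos, (Nat.le_of_dvd (it_pos (by omega) j) p3).trans
        ((it_le h3.2 j).trans (hX j (by omega)))⟩, p4⟩, p1,
        (prime_succ hp hp3 p1 hp le_rfl p4).1, p2⟩
    · rw [DD, Finset.mem_filter]
      exact ⟨hn0, h2.1, hd, p3⟩
  refine h1.trans ?_
  have h2 : ∑ s ∈ T, ((DD κ N j p s).card : ℝ)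
      ≤ ∑ s ∈ (Icc 1 X).filter (fun s => p ∣ s + 1), N * (2 * W) ^ j / p * ((1 : ℝ) / s) := by
    refine (Finset.sum_le_sum (g := fun s : ℕ => N * (2 * W) ^ j / p * ((1 : ℝ) / s)) ?_).trans ?_
    · intro s hs
      rw [hT, Finset.mem_filter] at hs
      refine (DD_card hκ hW hW0 hX hp hp3 hj hs.2.1 hs.2.2.1 hs.2.2.2).trans (le_of_eq ?_)
      rw [mul_one_div, div_div]
    · apply Finset.sum_le_sum_of_subset_of_nonneg (Finset.filter_subset _ _)
      intro s _ _; positivity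
  refine h2.trans ?_
  rw [← Finset.mul_sum]
  calc N * (2 * W) ^ j / p * ∑ s ∈ (Icc 1 X).filter (fun s => p ∣ s + 1), (1 : ℝ) / s
      ≤ N * (2 * W) ^ j / p * (2 * W / p) :=
        mul_le_mul_of_nonneg_left (sum_shift X p hp.pos W hW) (by positivity)
    _ = N * (2 * W) ^ (j + 1) * (1 / (p : ℝ) ^ 2) := by rw [pow_succ]; field_simp

lemma Qt_one (κ : ℕ) : Qt κ 1 = 2 * Bb κ 0 + 1 := rfl

lemma Qt_mono' (hκ : 1 ≤ κ) {i j : ℕ} (h : i ≤ j) : Qt κ i ≤ Qt κ j := by
  induction j, h using Nat.le_induction with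
  | base => exact le_rfl
  | succ j _ ih => exact ih.trans (Qt_mono hκ j)

/-- the numbers with a large common divisor with an iterate -/
noncomputable def Large (κ N m : ℕ) : Finset ℕ :=
  (Icc 1 N).filter fun n => ∃ i, 1 ≤ i ∧ i ≤ m ∧ Qt κ m ^ κ < Nat.gcd n (it i n)

lemma gcd_le (hκ : 1 ≤ κ) {n i : ℕ} (hn : 0 < n) (hm : 1 ≤ m) (hG : G κ m n)
    (h : ∀ p, p.Prime → Qt κ m ≤ p → ¬ (p ∣ n ∧ p ∣ it i n)) :
    Nat.gcd n (it i n) ≤ Qt κ m ^ κ := by
  set g := Nat.gcd n (it i n) with hg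
  have hg0 : g ≠ 0 := (Nat.gcd_pos_of_pos_left _ hn).ne'
  have hgn : g ∣ n := Nat.gcd_dvd_left _ _
  have hP := hG 0 (by omega)
  have hsub : g.primeFactors ⊆ n.primeFactors := Nat.primeFactors_mono hgn hn.ne'
  have hB : Bb κ 0 ≤ Qt κ m := by
    have := Qt_mono' hκ hm
    rw [Qt_one] at this
    omega
  have hQ1 : 1 ≤ Qt κ m := by
    have := two_pow_le_Bb hκ 0
    have h2 : 1 ≤ 2 ^ κ := Nat.one_le_two_pow
    omega
  calc g = ∏ q ∈ g.primeFactors, q ^ g.factorization q := by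
        conv_lhs => rw [← Nat.prod_factorization_pow_eq_self hg0]
        rfl
    _ ≤ ∏ _q ∈ g.primeFactors, Qt κ m := by
        apply Finset.prod_le_prod'
        intro q hq
        have hqp := Nat.prime_of_mem_primeFactors hq
        have hqd := Nat.dvd_of_mem_primeFactors hq
        have hlt : q < Qt κ m := by
          by_contra hh
          exact h q hqp (not_lt.1 hh)
            ⟨hqd.trans hgn, hqd.trans (Nat.gcd_dvd_right _ _)⟩
        have hle : g.factorization q ≤ n.factorization q :=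
          (Nat.factorization_le_iff_dvd hg0 hn.ne').2 hgn q
        by_cases h2 : 2 ≤ n.factorization q
        · have h3 := hP.2 q (hsub hq) h2
          rw [it_zero] at h3
          exact ((Nat.pow_le_pow_right hqp.pos hle).trans h3).trans hB
        · calc q ^ g.factorization q ≤ q ^ 1 := Nat.pow_le_pow_right hqp.pos (by omega)
            _ ≤ Qt κ m := by rw [pow_one]; exact hlt.le
    _ = Qt κ m ^ g.primeFactors.card := by rw [Finset.prod_const]
    _ ≤ Qt κ m ^ κ := Nat.pow_le_pow_right hQ1 ((Finset.card_le_card hsub).trans hP.1)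

lemma Large_card (hκ : 1 ≤ κ) (hW : ∑ k ∈ Icc 1 (X + 1), (1 : ℝ) / k ≤ W) (hW1 : 1 ≤ W)
    (hm : 1 ≤ m) (hX : ∀ j ≤ m, N ^ (2 ^ j) ≤ X) :
    ((Large κ N m).card : ℝ) ≤ (m * (m + 4) : ℝ) * (N * (2 * W) ^ (2 * m + 2)) / 2 ^ κ := by
  have hW0 : 0 ≤ W := by linarith
  set Y : ℝ := N * (2 * W) ^ (2 * m + 2) with hY
  have hY0 : 0 ≤ Y := by positivity
  have hNX : N ≤ X := by have := hX 0 (by omega); simpa using this
  have hWN : ∑ k ∈ Icc 1 N, (1 : ℝ) / k ≤ W := by
    refine le_trans ?_ hW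
    apply Finset.sum_le_sum_of_subset_of_nonneg
    · exact Finset.Icc_subset_Icc_right (by omega)
    · intro k _ _; positivity
  have hQ2 : 2 ^ κ + 1 ≤ Qt κ m := by
    have h1 := Qt_mono' hκ hm
    have h2 := two_pow_le_Bb hκ 0
    rw [Qt_one] at h1; omega
  have hQ3 : (2 : ℝ) ^ κ ≤ (Qt κ m : ℝ) - 1 := by
    have : ((2 ^ κ + 1 : ℕ) : ℝ) ≤ Qt κ m := by exact_mod_cast hQ2
    push_cast at this; linarith
  have hQ4 : 5 ≤ Qt κ m := by
    have h1 := Qt_mono' hκ hm
    have h2 : 4 ^ 1 ≤ 4 ^ κ := Nat.pow_le_pow_right (by norm_num) hκ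
    have h3 : Bb κ 0 = 4 ^ κ := rfl
    rw [Qt_one, h3] at h1
    omega
  have hpw : ∀ a, a ≤ 2 * m + 2 → (N : ℝ) * (2 * W) ^ a ≤ Y := fun a ha => by
    apply mul_le_mul_of_nonneg_left _ (by positivity)
    exact pow_le_pow_right₀ (by linarith) ha
  -- the inclusion
  have h1 : ((Large κ N m).card : ℝ) ≤ ∑ j ∈ range m, (((Bad κ N j).card : ℝ)
      + ∑ p ∈ (Ico (Qt κ m) (N + 1)).filter Nat.Prime, ((FF κ N j p).card : ℝ)) := by
    have h2 : ((Large κ N m).card : ℝ) ≤ ∑ j ∈ range m,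
        ((Bad κ N j ∪ ((Ico (Qt κ m) (N + 1)).filter Nat.Prime).biUnion (FF κ N j)).card : ℝ) := by
      apply card_le_sum
      intro n hn
      rw [Large, Finset.mem_filter] at hn
      obtain ⟨hn0, i, hi1, hi2, hlt⟩ := hn
      have hn1 := Finset.mem_Icc.1 hn0
      by_cases hG : G κ m n
      · by_cases h3 : ∀ p, p.Prime → Qt κ m ≤ p → ¬ (p ∣ n ∧ p ∣ it i n)
        · exact absurd (gcd_le hκ (by omega) hm hG h3) (not_le.2 hlt)
        · push Not at h3
          obtain ⟨p, hp, hQ, hd, hd'⟩ := h3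
          refine ⟨i - 1, Finset.mem_range.2 (by omega), ?_⟩
          rw [Finset.mem_union]
          right
          rw [Finset.mem_biUnion]
          refine ⟨p, ?_, ?_⟩
          · rw [Finset.mem_filter, Finset.mem_Ico]
            have := Nat.le_of_dvd (by omega) hd
            exact ⟨⟨hQ, by omega⟩, hp⟩
          · rw [FF, Finset.mem_filter]
            have e : i - 1 + 1 = i := by omega
            rw [e]
            exact ⟨hn0, fun a ha => hG a (by omega), hd, hd'⟩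
      · have h4 : ∃ j, j < m ∧ ¬ P κ j n := by
          by_contra h5
          push Not at h5
          exact hG h5
        classical
        have h5 := Nat.find_spec h4
        refine ⟨Nat.find h4, Finset.mem_range.2 h5.1, ?_⟩
        rw [Finset.mem_union]
        left
        rw [Bad, Finset.mem_filter]
        refine ⟨hn0, ?_, h5.2⟩
        intro a ha
        by_contra h6
        exact Nat.find_min h4 ha ⟨by omega, h6⟩
    refine h2.trans (Finset.sum_le_sum ?_)
    intro j _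
    have h3 := Finset.card_union_le (Bad κ N j)
      (((Ico (Qt κ m) (N + 1)).filter Nat.Prime).biUnion (FF κ N j))
    have h4 : ((((Ico (Qt κ m) (N + 1)).filter Nat.Prime).biUnion (FF κ N j)).card : ℝ)
        ≤ ∑ p ∈ (Ico (Qt κ m) (N + 1)).filter Nat.Prime, ((FF κ N j p).card : ℝ) := by
      exact_mod_cast Finset.card_biUnion_le
    have h5 : ((Bad κ N j ∪ ((Ico (Qt κ m) (N + 1)).filter Nat.Prime).biUnion (FF κ N j)).card
        : ℝ) ≤ (Bad κ N j).card
          + ((((Ico (Qt κ m) (N + 1)).filter Nat.Prime).biUnion (FF κ N j)).card : ℝ) := by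
      exact_mod_cast h3
    linarith
  have h2 : ∀ j ∈ range m, ((Bad κ N j).card : ℝ)
      + ∑ p ∈ (Ico (Qt κ m) (N + 1)).filter Nat.Prime, ((FF κ N j p).card : ℝ)
      ≤ (m + 4) * Y / 2 ^ κ := by
    intro j hj
    rw [Finset.mem_range] at hj
    have h3 : ∑ p ∈ (Ico (Qt κ m) (N + 1)).filter Nat.Prime, ((FF κ N j p).card : ℝ)
        ≤ Y / 2 ^ κ := by
      calc ∑ p ∈ (Ico (Qt κ m) (N + 1)).filter Nat.Prime, ((FF κ N j p).card : ℝ)
          ≤ ∑ p ∈ (Ico (Qt κ m) (N + 1)).filter Nat.Prime, Y * ((1 : ℝ) / (p : ℝ) ^ 2) := by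
            apply Finset.sum_le_sum
            intro p hp
            rw [Finset.mem_filter, Finset.mem_Ico] at hp
            refine (FF_card hκ hW hW0 hX hp.2 (hQ4.trans hp.1.1) (by omega)
              ((Qt_mono' hκ (by omega : j + 1 ≤ m)).trans hp.1.1)).trans ?_
            exact mul_le_mul_of_nonneg_right (hpw _ (by omega)) (by positivity)
        _ ≤ ∑ p ∈ Ico (Qt κ m) (N + 1), Y * ((1 : ℝ) / (p : ℝ) ^ 2) := by
            apply Finset.sum_le_sum_of_subset_of_nonneg (Finset.filter_subset _ _)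
            intro p _ _; positivity
        _ = Y * ∑ p ∈ Ico (Qt κ m) (N + 1), (1 : ℝ) / (p : ℝ) ^ 2 := by rw [Finset.mul_sum]
        _ ≤ Y * (1 / ((Qt κ m : ℝ) - 1)) :=
            mul_le_mul_of_nonneg_left (sum_sq_tail _ _ (by omega)) hY0
        _ ≤ Y * (1 / 2 ^ κ) := by
            apply mul_le_mul_of_nonneg_left _ hY0
            exact one_div_le_one_div_of_le (by positivity) hQ3
        _ = Y / 2 ^ κ := by ring
    have h4 : ((Bad κ N j).card : ℝ) ≤ (m + 3) * Y / 2 ^ κ := by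
      rcases Nat.eq_zero_or_pos j with h5 | h5
      · rw [h5]
        refine (Bad_zero_card hκ hWN hW1).trans ?_
        apply div_le_div_of_nonneg_right _ (by positivity)
        have h6 := hpw 2 (by omega)
        nlinarith
      · obtain ⟨a, rfl⟩ : ∃ a, j = a + 1 := ⟨j - 1, by omega⟩
        refine (Bad_succ_card hκ hW hW1 hX (j := a) (by omega)).trans ?_
        apply div_le_div_of_nonneg_right _ (by positivity)
        have h6 := hpw (2 * a + 2) (by omega)
        have h7 : (a : ℝ) + 4 ≤ m + 3 := by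
          have : ((a + 1 : ℕ) : ℝ) ≤ m := by exact_mod_cast hj.le
          push_cast at this; linarith
        exact mul_le_mul h7 h6 (by positivity) (by positivity)
    calc _ ≤ (m + 3) * Y / 2 ^ κ + Y / 2 ^ κ := add_le_add h4 h3
      _ = (m + 4) * Y / 2 ^ κ := by ring
  calc ((Large κ N m).card : ℝ) ≤ ∑ _j ∈ range m, (m + 4) * Y / 2 ^ κ :=
        h1.trans (Finset.sum_le_sum h2)
    _ = (m * (m + 4) : ℝ) * Y / 2 ^ κ := by
        rw [Finset.sum_const, nsmul_eq_mul, Finset.card_range]; ring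

end

end Pool.MKP
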