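import Pool.Agent.H38.MKP.Count

/-!
# Iterates of the sum of divisors: the inductive step and the count of the exceptions
-/

set_option autoImplicit false

namespace Pool.MKP

open ArithmeticFunction Finset

lemma card_primeFactors_prod_le (S : Finset ℕ) (f : ℕ → ℕ) (c : ℕ)
    (h : ∀ s ∈ S, (f s).primeFactors.card ≤ c) (hf : ∀ s ∈ S, f s ≠ 0) :
    (∏ s ∈ S, f s).primeFactors.card ≤ S.card * c := by
  have h1 : (∏ s ∈ S, f s).primeFactors ⊆ S.biUnion fun s => (f s).primeFactors := by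
    intro p hp
    have hpp := Nat.prime_of_mem_primeFactors hp
    have hpd := Nat.dvd_of_mem_primeFactors hp
    obtain ⟨s, hs, hd⟩ := (Prime.dvd_finsetProd_iff hpp.prime _).1 hpd
    rw [Finset.mem_biUnion]
    exact ⟨s, hs, Nat.mem_primeFactors.2 ⟨hpp, hd, hf s hs⟩⟩
  calc (∏ s ∈ S, f s).primeFactors.card ≤ (S.biUnion fun s => (f s).primeFactors).card :=
        Finset.card_le_card h1
    _ ≤ ∑ s ∈ S, (f s).primeFactors.card := Finset.card_biUnion_le
    _ ≤ ∑ _s ∈ S, c := Finset.sum_le_sum h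
    _ = S.card * c := by rw [Finset.sum_const, smul_eq_mul]

lemma step {κ : ℕ} (hκ : 1 ≤ κ) {j n : ℕ} (hn : 0 < n) (hG : G κ (j + 1) n)
    (ha : ¬ ∃ s, s.Prime ∧ Qt κ j ≤ s ∧ s ∣ it j n ∧ κ < (s + 1).primeFactors.card)
    (hb : ¬ ∃ q s, q.Prime ∧ s.Prime ∧ Qt κ (j + 1) ≤ q ∧ Qt κ j ≤ s ∧ s ∣ it j n ∧
      q ^ 2 ∣ s + 1)
    (hc : ¬ ∃ q s s', q.Prime ∧ s.Prime ∧ s'.Prime ∧ s ≠ s' ∧ Qt κ (j + 1) ≤ q ∧ Qt κ j ≤ s ∧
      Qt κ j ≤ s' ∧ s ∣ it j n ∧ s' ∣ it j n ∧ q ∣ s + 1 ∧ q ∣ s' + 1)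
    (hd : ¬ ∃ q v s, q.Prime ∧ s.Prime ∧ q < Qt κ (j + 1) ∧ Qt κ (j + 1) ^ 2 < q ^ v ∧
      Qt κ j ≤ s ∧ s ∣ it j n ∧ q ^ v ∣ s + 1) : P κ (j + 1) n := by
  have hP := (G_succ.1 hG).2
  set M := it j n with hM
  have hM0 : M ≠ 0 := (it_pos hn j).ne'
  have hM' : it (j + 1) n = ∏ s ∈ M.primeFactors, sigma 1 (s ^ M.factorization s) := by
    rw [it_succ, ← hM]; exact sigma_prod hM0
  have hpos : ∀ s ∈ M.primeFactors, sigma 1 (s ^ M.factorization s) ≠ 0 := fun s hs =>
    (sigma_pos' (pow_pos (Nat.prime_of_mem_primeFactors hs).pos _)).ne'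
  have hv : ∀ s ∈ M.primeFactors, 1 ≤ M.factorization s := fun s hs =>
    ((Nat.prime_of_mem_primeFactors hs).dvd_iff_one_le_factorization hM0).1
      (Nat.dvd_of_mem_primeFactors hs)
  have hQ1 : 1 ≤ Qt κ (j + 1) := by simp [Qt]
  have hbig : ∀ s ∈ M.primeFactors, 2 ≤ M.factorization s →
      sigma 1 (s ^ M.factorization s) ≤ Qt κ (j + 1) := by
    intro s hs h2
    have h3 := hP.2 s hs h2
    rw [← hM] at h3
    have h4 := sigma_pow_lt (Nat.prime_of_mem_primeFactors hs) (M.factorization s)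
    simp only [Qt]
    omega
  have hone : ∀ s ∈ M.primeFactors, ¬ 2 ≤ M.factorization s →
      sigma 1 (s ^ M.factorization s) = s + 1 := by
    intro s hs h2
    have h3 : M.factorization s = 1 := by have := hv s hs; omega
    rw [h3, sigma_prime (Nat.prime_of_mem_primeFactors hs)]
  constructor
  · -- the number of prime factors
    rw [hM', Kk_succ]
    refine (card_primeFactors_prod_le _ _ (κ + Nat.log 2 (Qt κ (j + 1))) ?_ hpos).trans
      (Nat.mul_le_mul_right _ hP.1)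
    intro s hs
    have hsp := Nat.prime_of_mem_primeFactors hs
    have hlog : ∀ y, y ≠ 0 → y ≤ Qt κ (j + 1) →
        y.primeFactors.card ≤ κ + Nat.log 2 (Qt κ (j + 1)) := fun y hy hyQ =>
      ((omega_le_log y hy).trans (Nat.log_mono_right hyQ)).trans (by omega)
    by_cases h2 : 2 ≤ M.factorization s
    · exact hlog _ (hpos s hs) (hbig s hs h2)
    · rw [hone s hs h2]
      by_cases h3 : Qt κ j ≤ s
      · have : (s + 1).primeFactors.card ≤ κ := by
          by_contra h4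
          exact ha ⟨s, hsp, h3, Nat.dvd_of_mem_primeFactors hs, by omega⟩
        omega
      · exact hlog _ (by omega) ((by omega : s + 1 ≤ Qt κ j).trans (Qt_mono hκ j))
  · -- the prime powers
    intro q hq ha2
    have hqp := Nat.prime_of_mem_primeFactors hq
    have hsum : (it (j + 1) n).factorization q
        = ∑ s ∈ M.primeFactors, (sigma 1 (s ^ M.factorization s)).factorization q := by
      rw [hM', Nat.factorization_prod hpos, Finset.sum_apply']
    rw [Bb_succ]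
    by_cases hqQ : Qt κ (j + 1) ≤ q
    · exfalso
      by_cases h2 : ∃ s ∈ M.primeFactors,
          2 ≤ (sigma 1 (s ^ M.factorization s)).factorization q
      · obtain ⟨s, hs, h3⟩ := h2
        have h4 : q ^ 2 ∣ sigma 1 (s ^ M.factorization s) :=
          (hqp.pow_dvd_iff_le_factorization (hpos s hs)).2 h3
        obtain ⟨h5, h6, h7, h8, h9⟩ := down hκ hn hP hqQ hs
          ((Dvd.intro_left _ (by ring : q * q = q ^ 2)).trans h4)
        rw [← hM] at h5
        rw [h5, sigma_prime h8] at h4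
        exact hb ⟨q, s, hqp, h8, hqQ, h7, h9, h4⟩
      · push Not at h2
        have h3 : 2 ≤ (M.primeFactors.filter
            fun s => 1 ≤ (sigma 1 (s ^ M.factorization s)).factorization q).card := by
          rw [hsum] at ha2
          refine ha2.trans ?_
          rw [Finset.card_filter]
          apply Finset.sum_le_sum
          intro s hs
          have := h2 s hs
          split_ifs with h4 <;> omega
        obtain ⟨s, hs, s', hs', hne⟩ := Finset.one_lt_card.1 (lt_of_lt_of_le one_lt_two h3)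
        rw [Finset.mem_filter] at hs hs'
        have hdv : ∀ s ∈ M.primeFactors,
            1 ≤ (sigma 1 (s ^ M.factorization s)).factorization q →
            q ∣ sigma 1 (s ^ M.factorization s) := fun s hs h =>
          (hqp.dvd_iff_one_le_factorization (hpos s hs)).2 h
        obtain ⟨-, h6, h7, h8, h9⟩ := down hκ hn hP hqQ hs.1 (hdv s hs.1 hs.2)
        obtain ⟨-, g6, g7, g8, g9⟩ := down hκ hn hP hqQ hs'.1 (hdv s' hs'.1 hs'.2)
        exact hc ⟨q, s, s', hqp, h8, g8, hne, hqQ, h7, g7, h9, g9, h6, g6⟩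
    · have h1 : q ^ (it (j + 1) n).factorization q
          = ∏ s ∈ M.primeFactors, q ^ (sigma 1 (s ^ M.factorization s)).factorization q := by
        rw [hsum, Finset.prod_pow_eq_pow_sum]
      rw [h1]
      have h2 : ∀ s ∈ M.primeFactors,
          q ^ (sigma 1 (s ^ M.factorization s)).factorization q ≤ Qt κ (j + 1) ^ 2 := by
        intro s hs
        have hsp := Nat.prime_of_mem_primeFactors hs
        have h3 : q ^ (sigma 1 (s ^ M.factorization s)).factorization q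
            ∣ sigma 1 (s ^ M.factorization s) := Nat.ordProj_dvd _ _
        have h4 := Nat.le_of_dvd (Nat.pos_of_ne_zero (hpos s hs)) h3
        have h5 : Qt κ (j + 1) ≤ Qt κ (j + 1) ^ 2 := Nat.le_self_pow (by norm_num) _
        by_cases h6 : 2 ≤ M.factorization s
        · exact (h4.trans (hbig s hs h6)).trans h5
        · rw [hone s hs h6] at h3 h4 ⊢
          by_cases h7 : Qt κ j ≤ s
          · by_contra h8
            exact hd ⟨q, (s + 1).factorization q, s, hqp, hsp, by omega, by omega, h7,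
              Nat.dvd_of_mem_primeFactors hs, h3⟩
          · have h8 := Qt_mono hκ j
            exact h4.trans ((by omega : s + 1 ≤ Qt κ (j + 1)).trans h5)
      calc ∏ s ∈ M.primeFactors, q ^ (sigma 1 (s ^ M.factorization s)).factorization q
          ≤ ∏ _s ∈ M.primeFactors, Qt κ (j + 1) ^ 2 := Finset.prod_le_prod' h2
        _ = (Qt κ (j + 1) ^ 2) ^ M.primeFactors.card := by rw [Finset.prod_const]
        _ ≤ (Qt κ (j + 1) ^ 2) ^ Kk κ j := Nat.pow_le_pow_right (pow_pos (by omega) 2) hP.1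

open scoped Classical in
section

variable {κ N X m : ℕ} {W : ℝ}

noncomputable def Bad (κ N j : ℕ) : Finset ℕ :=
  (Icc 1 N).filter fun n => G κ j n ∧ ¬ P κ j n

/-- the exceptional sets at the levels `j + 1` -/
lemma Bad_succ_card (hκ : 1 ≤ κ) (hW : ∑ k ∈ Icc 1 (X + 1), (1 : ℝ) / k ≤ W) (hW1 : 1 ≤ W)
    (hX : ∀ j ≤ m, N ^ (2 ^ j) ≤ X) {j : ℕ} (hj : j ≤ m) :
    ((Bad κ N (j + 1)).card : ℝ) ≤ (j + 4) * (N * (2 * W) ^ (2 * j + 2)) / 2 ^ κ := by
  have hW0 : 0 ≤ W := by linarith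
  have hQ2 : 2 ^ κ + 1 ≤ Qt κ (j + 1) := by
    have := two_pow_le_Bb hκ j
    simp only [Qt]; omega
  have hQ3 : (2 : ℝ) ^ κ ≤ (Qt κ (j + 1) : ℝ) - 1 := by
    have : ((2 ^ κ + 1 : ℕ) : ℝ) ≤ Qt κ (j + 1) := by exact_mod_cast hQ2
    push_cast at this; linarith
  have hκ2 : (2 : ℝ) ≤ 2 ^ κ := by
    calc (2 : ℝ) = 2 ^ 1 := by norm_num
      _ ≤ 2 ^ κ := pow_le_pow_right₀ (by norm_num) hκ
  have hQ4 : 2 ≤ Qt κ (j + 1) := by
    have : 2 ^ 1 ≤ 2 ^ κ := Nat.pow_le_pow_right (by norm_num) hκ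
    omega
  have hbase : (N : ℝ) * (2 * W) ^ (j + 1) ≤ N * (2 * W) ^ (2 * j + 2) := by
    apply mul_le_mul_of_nonneg_left _ (by positivity)
    exact pow_le_pow_right₀ (by linarith) (by omega)
  set Y : ℝ := N * (2 * W) ^ (2 * j + 2) with hY
  have hY0 : 0 ≤ Y := by positivity
  -- the four sets
  set Ea := (Icc 1 N).filter fun n => G κ j n ∧ ∃ s, s.Prime ∧ Qt κ j ≤ s ∧ s ∣ it j n ∧
    κ < (s + 1).primeFactors.card with hEa
  have hbd : ∀ n ∈ Icc 1 N, ∀ s, s ∣ it j n → s ≤ X := by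
    intro n hn s hs
    rw [Finset.mem_Icc] at hn
    exact (Nat.le_of_dvd (it_pos (by omega) j) hs).trans ((it_le hn.2 j).trans (hX j hj))
  have ca : (Ea.card : ℝ) ≤ Y / 2 ^ κ := by
    set T := (Icc 1 X).filter (fun s => κ < (s + 1).primeFactors.card) with hT
    set T' := T.filter (fun s => s.Prime ∧ Qt κ j ≤ s) with hT'
    have h1 : (Ea.card : ℝ) ≤ ∑ s ∈ T', ((AA κ N j s).card : ℝ) := by
      apply card_le_sum
      intro n hn
      rw [hEa, Finset.mem_filter] at hn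
      obtain ⟨hn0, hG, s, hs, hQ, hd, hD⟩ := hn
      refine ⟨s, ?_, ?_⟩
      · rw [hT', Finset.mem_filter, hT, Finset.mem_filter, Finset.mem_Icc]
        exact ⟨⟨⟨hs.pos, hbd n hn0 s hd⟩, hD⟩, hs, hQ⟩
      · rw [AA, Finset.mem_filter]
        exact ⟨hn0, hG, hd⟩
    have h2 : ∑ s ∈ T', ((AA κ N j s).card : ℝ)
        ≤ ∑ s ∈ T, N * (2 * W) ^ j * (2 * ((1 : ℝ) / ((s + 1 : ℕ) : ℝ))) := by
      refine (Finset.sum_le_sum (g := fun s : ℕ =>
        N * (2 * W) ^ j * (2 * ((1 : ℝ) / ((s + 1 : ℕ) : ℝ)))) ?_).trans ?_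
      · intro s hs
        rw [hT', Finset.mem_filter] at hs
        have hs1 : (1 : ℝ) ≤ s := by exact_mod_cast hs.2.1.one_lt.le
        refine (AA_card hκ hW hW0 hX hj hs.2.1 hs.2.2).trans ?_
        rw [div_eq_mul_one_div]
        apply mul_le_mul_of_nonneg_left _ (by positivity)
        push_cast
        rw [mul_one_div, div_le_div_iff₀ (by linarith) (by linarith)]
        linarith
      · apply Finset.sum_le_sum_of_subset_of_nonneg (Finset.filter_subset _ _)
        intro s _ _; positivity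
    have h3 : ∑ s ∈ T, (1 : ℝ) / ((s + 1 : ℕ) : ℝ) ≤ W ^ 2 / 2 ^ κ := by
      refine le_trans ?_ (sum_omega (X + 1) κ W hW)
      rw [← Finset.sum_image (s := T) (g := fun s => s + 1) (f := fun k : ℕ => (1 : ℝ) / k)]
      · apply Finset.sum_le_sum_of_subset_of_nonneg
        · intro k hk
          rw [Finset.mem_image] at hk
          obtain ⟨s, hs, rfl⟩ := hk
          rw [hT, Finset.mem_filter, Finset.mem_Icc] at hs
          rw [Finset.mem_filter, Finset.mem_Icc]
          exact ⟨⟨by omega, by omega⟩, hs.2⟩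
        · intro k _ _; positivity
      · intro a _ b _ hab
        simp only at hab
        omega
    refine h1.trans (h2.trans ?_)
    rw [← Finset.mul_sum, ← Finset.mul_sum]
    calc N * (2 * W) ^ j * (2 * ∑ s ∈ T, (1 : ℝ) / ((s + 1 : ℕ) : ℝ))
        ≤ N * (2 * W) ^ j * (2 * (W ^ 2 / 2 ^ κ)) := by
          apply mul_le_mul_of_nonneg_left _ (by positivity)
          linarith
      _ ≤ N * (2 * W) ^ j * (2 * W) ^ 2 / 2 ^ κ := by
          rw [← mul_div_assoc, ← mul_div_assoc]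
          apply div_le_div_of_nonneg_right _ (by positivity)
          apply mul_le_mul_of_nonneg_left _ (by positivity)
          nlinarith
      _ ≤ Y / 2 ^ κ := by
          apply div_le_div_of_nonneg_right _ (by positivity)
          rw [hY, mul_assoc, ← pow_add]
          apply mul_le_mul_of_nonneg_left _ (by positivity)
          exact pow_le_pow_right₀ (by linarith) (by omega)
  -- squares of large primes
  have cb : ∑ q ∈ Ico (Qt κ (j + 1)) (X + 2), ((EV κ N j (q ^ 2)).card : ℝ) ≤ Y / 2 ^ κ := by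
    calc ∑ q ∈ Ico (Qt κ (j + 1)) (X + 2), ((EV κ N j (q ^ 2)).card : ℝ)
        ≤ ∑ q ∈ Ico (Qt κ (j + 1)) (X + 2), Y * ((1 : ℝ) / (q : ℝ) ^ 2) := by
          apply Finset.sum_le_sum
          intro q hq
          rw [Finset.mem_Ico] at hq
          have hq0 : 0 < q := by omega
          refine (EV_card hκ hW hW0 hX hj (pow_pos hq0 2)).trans ?_
          push_cast
          rw [mul_one_div]
          exact div_le_div_of_nonneg_right hbase (by positivity)
      _ = Y * ∑ q ∈ Ico (Qt κ (j + 1)) (X + 2), (1 : ℝ) / (q : ℝ) ^ 2 := by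
          rw [Finset.mul_sum]
      _ ≤ Y * (1 / ((Qt κ (j + 1) : ℝ) - 1)) :=
          mul_le_mul_of_nonneg_left (sum_sq_tail _ _ hQ4) hY0
      _ ≤ Y * (1 / 2 ^ κ) := by
          apply mul_le_mul_of_nonneg_left _ hY0
          exact one_div_le_one_div_of_le (by positivity) hQ3
      _ = Y / 2 ^ κ := by ring
  have cc : ∑ q ∈ Ico (Qt κ (j + 1)) (X + 2), ((EV2 κ N j q q).card : ℝ)
      ≤ (j + 1) * Y / 2 ^ κ := by
    calc ∑ q ∈ Ico (Qt κ (j + 1)) (X + 2), ((EV2 κ N j q q).card : ℝ)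
        ≤ ∑ q ∈ Ico (Qt κ (j + 1)) (X + 2), (j + 1) * Y * ((1 : ℝ) / (q : ℝ) ^ 2) := by
          apply Finset.sum_le_sum
          intro q hq
          rw [Finset.mem_Ico] at hq
          have hq0 : 0 < q := by omega
          refine (EV2_card hκ hW hW1 hX hj hq0 hq0).trans (le_of_eq ?_)
          rw [mul_one_div, sq, hY]
      _ = (j + 1) * Y * ∑ q ∈ Ico (Qt κ (j + 1)) (X + 2), (1 : ℝ) / (q : ℝ) ^ 2 := by
          rw [Finset.mul_sum]
      _ ≤ (j + 1) * Y * (1 / ((Qt κ (j + 1) : ℝ) - 1)) :=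
          mul_le_mul_of_nonneg_left (sum_sq_tail _ _ hQ4) (by positivity)
      _ ≤ (j + 1) * Y * (1 / 2 ^ κ) := by
          apply mul_le_mul_of_nonneg_left _ (by positivity)
          exact one_div_le_one_div_of_le (by positivity) hQ3
      _ = (j + 1) * Y / 2 ^ κ := by ring
  have cd : ∑ q ∈ Ico 2 (Qt κ (j + 1)),
      ((EV κ N j (q ^ (Nat.log q (Qt κ (j + 1) ^ 2) + 1))).card : ℝ) ≤ Y / 2 ^ κ := by
    have hQ0 : (0 : ℝ) < Qt κ (j + 1) := by exact_mod_cast (by omega : 0 < Qt κ (j + 1))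
    calc ∑ q ∈ Ico 2 (Qt κ (j + 1)),
          ((EV κ N j (q ^ (Nat.log q (Qt κ (j + 1) ^ 2) + 1))).card : ℝ)
        ≤ ∑ _q ∈ Ico 2 (Qt κ (j + 1)), Y / (Qt κ (j + 1) : ℝ) ^ 2 := by
          apply Finset.sum_le_sum
          intro q hq
          rw [Finset.mem_Ico] at hq
          have h1 : Qt κ (j + 1) ^ 2 < q ^ (Nat.log q (Qt κ (j + 1) ^ 2) + 1) :=
            Nat.lt_pow_succ_log_self (by omega) _
          have h2 : (Qt κ (j + 1) : ℝ) ^ 2 ≤ ((q ^ (Nat.log q (Qt κ (j + 1) ^ 2) + 1) : ℕ) : ℝ) := by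
            exact_mod_cast h1.le
          refine (EV_card hκ hW hW0 hX hj (pow_pos (by omega) _)).trans ?_
          exact div_le_div₀ hY0 hbase (by positivity) h2
      _ = (Qt κ (j + 1) - 2 : ℕ) * (Y / (Qt κ (j + 1) : ℝ) ^ 2) := by
          rw [Finset.sum_const, nsmul_eq_mul, Nat.card_Ico]
      _ ≤ (Qt κ (j + 1) : ℝ) * (Y / (Qt κ (j + 1) : ℝ) ^ 2) := by
          apply mul_le_mul_of_nonneg_right _ (by positivity)
          exact_mod_cast Nat.sub_le _ _
      _ = Y / Qt κ (j + 1) := by field_simp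
      _ ≤ Y / 2 ^ κ := by
          apply div_le_div_of_nonneg_left hY0 (by positivity)
          linarith
  -- the inclusion
  have hincl : ((Bad κ N (j + 1)).card : ℝ) ≤ Ea.card
      + ∑ q ∈ Ico (Qt κ (j + 1)) (X + 2), ((EV κ N j (q ^ 2)).card : ℝ)
      + ∑ q ∈ Ico (Qt κ (j + 1)) (X + 2), ((EV2 κ N j q q).card : ℝ)
      + ∑ q ∈ Ico 2 (Qt κ (j + 1)),
        ((EV κ N j (q ^ (Nat.log q (Qt κ (j + 1) ^ 2) + 1))).card : ℝ) := by
    set S1 := (Ico (Qt κ (j + 1)) (X + 2)).biUnion fun q => EV κ N j (q ^ 2) with hS1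
    set S2 := (Ico (Qt κ (j + 1)) (X + 2)).biUnion fun q => EV2 κ N j q q with hS2
    set S3 := (Ico 2 (Qt κ (j + 1))).biUnion fun q =>
      EV κ N j (q ^ (Nat.log q (Qt κ (j + 1) ^ 2) + 1)) with hS3
    have h1 : Bad κ N (j + 1) ⊆ ((Ea ∪ S1) ∪ S2) ∪ S3 := by
      intro n hn
      rw [Bad, Finset.mem_filter] at hn
      obtain ⟨hn0, hG, hnP⟩ := hn
      have hG' := G_succ.1 hG
      have hn1 := Finset.mem_Icc.1 hn0
      by_contra hnot
      simp only [Finset.mem_union, not_or] at hnot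
      obtain ⟨⟨⟨n1, n2⟩, n3⟩, n4⟩ := hnot
      apply hnP
      apply step hκ (by omega) hG
      · rintro ⟨s, h⟩
        apply n1
        rw [hEa, Finset.mem_filter]
        exact ⟨hn0, hG'.1, s, h⟩
      · rintro ⟨q, s, hq, hs, h1, h2, h3, h4⟩
        apply n2
        rw [hS1, Finset.mem_biUnion]
        refine ⟨q, ?_, ?_⟩
        · rw [Finset.mem_Ico]
          refine ⟨h1, ?_⟩
          have h5 := hbd n hn0 s h3
          have h6 := Nat.le_of_dvd (by omega) h4
          have h7 : q ≤ q ^ 2 := Nat.le_self_pow (by norm_num) _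
          omega
        · rw [EV, Finset.mem_filter]
          exact ⟨hn0, hG'.1, s, hs, h2, h3, h4⟩
      · rintro ⟨q, s, s', hq, hs, hs', hne, h1, h2, h3, h4, h5, h6, h7⟩
        apply n3
        rw [hS2, Finset.mem_biUnion]
        refine ⟨q, ?_, ?_⟩
        · rw [Finset.mem_Ico]
          refine ⟨h1, ?_⟩
          have h8 := hbd n hn0 s h4
          have h9 := Nat.le_of_dvd (by omega) h6
          omega
        · rw [EV2, Finset.mem_filter]
          exact ⟨hn0, hG'.1, s, s', hs, hs', hne, h2, h3, h4, h5, h6, h7⟩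
      · rintro ⟨q, v, s, hq, hs, h1, h2, h3, h4, h5⟩
        apply n4
        rw [hS3, Finset.mem_biUnion]
        refine ⟨q, Finset.mem_Ico.2 ⟨hq.two_le, h1⟩, ?_⟩
        rw [EV, Finset.mem_filter]
        refine ⟨hn0, hG'.1, s, hs, h3, h4, (pow_dvd_pow q ?_).trans h5⟩
        have := Nat.log_lt_of_lt_pow (pow_pos (by omega : 0 < Qt κ (j + 1)) 2).ne' h2
        omega
    have h2 := Finset.card_le_card h1
    have h3 := Finset.card_union_le ((Ea ∪ S1) ∪ S2) S3
    have h4 := Finset.card_union_le (Ea ∪ S1) S2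
    have h5 := Finset.card_union_le Ea S1
    have h6 : (S1.card : ℝ) ≤ ∑ q ∈ Ico (Qt κ (j + 1)) (X + 2), ((EV κ N j (q ^ 2)).card : ℝ) := by
      exact_mod_cast (Finset.card_biUnion_le (s := Ico (Qt κ (j + 1)) (X + 2))
        (t := fun q => EV κ N j (q ^ 2)))
    have h7 : (S2.card : ℝ) ≤ ∑ q ∈ Ico (Qt κ (j + 1)) (X + 2), ((EV2 κ N j q q).card : ℝ) := by
      exact_mod_cast (Finset.card_biUnion_le (s := Ico (Qt κ (j + 1)) (X + 2))
        (t := fun q => EV2 κ N j q q))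
    have h8 : (S3.card : ℝ) ≤ ∑ q ∈ Ico 2 (Qt κ (j + 1)),
        ((EV κ N j (q ^ (Nat.log q (Qt κ (j + 1) ^ 2) + 1))).card : ℝ) := by
      exact_mod_cast (Finset.card_biUnion_le (s := Ico 2 (Qt κ (j + 1)))
        (t := fun q => EV κ N j (q ^ (Nat.log q (Qt κ (j + 1) ^ 2) + 1))))
    have h9 : ((Bad κ N (j + 1)).card : ℝ) ≤ Ea.card + S1.card + S2.card + S3.card := by
      exact_mod_cast (by omega : (Bad κ N (j + 1)).card ≤ Ea.card + S1.card + S2.card + S3.card)
    linarith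
  calc ((Bad κ N (j + 1)).card : ℝ) ≤ Y / 2 ^ κ + Y / 2 ^ κ + (j + 1) * Y / 2 ^ κ + Y / 2 ^ κ := by
        linarith
    _ = (j + 4) * Y / 2 ^ κ := by ring

end

end Pool.MKP
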